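import Mathlib

/-!
Square-free words over large alphabets: basic definitions.
A word of length n is viewed as a bi-infinite word W : ℤ → β whose letters outside [0,n) are fresh.
-/

set_option autoImplicit false

namespace Pool.Agent.SQF

/-- no square in the bi-infinite word W -/
def Sqf {β : Type*} (W : ℤ → β) : Prop :=
  ∀ (s : ℤ) (p : ℕ), 0 < p → ∃ i : ℕ, i < p ∧ W (s + i) ≠ W (s + i + p)

/-- all letters outside [0,n) occur exactly once -/
def Fresh {β : Type*} (W : ℤ → β) (n : ℕ) : Prop :=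
  ∀ i : ℤ, (i < 0 ∨ (n : ℤ) ≤ i) → ∀ j : ℤ, j ≠ i → W j ≠ W i

/-- The letter x inserted at the gap g (between W (g-1) and W g) lies in the FIRST half of a square of
half-length P, with b letters of the half before it. -/
def LEv {β : Type*} (W : ℤ → β) (g : ℤ) (x : β) (P b : ℕ) : Prop :=
  b + 2 ≤ P ∧ W (g + P - 1) = x ∧
  (∀ t : ℕ, t < b → W (g - 1 - t) = W (g - 1 - t + (P - 1))) ∧
  (∀ t : ℕ, t + b + 1 < P → W (g + t) = W (g + t + P))

/-- The same for the SECOND half of the square. -/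
def REv {β : Type*} (W : ℤ → β) (g : ℤ) (x : β) (P b : ℕ) : Prop :=
  1 ≤ b ∧ b + 1 ≤ P ∧ W (g - P) = x ∧
  (∀ t : ℕ, t < b → W (g - 1 - t) = W (g - 1 - t - P)) ∧
  (∀ t : ℕ, t + b + 1 < P → W (g + t) = W (g + t - (P - 1)))

/-- inserting x at the gap g creates a square of half-length P -/
def Ev {β : Type*} (W : ℤ → β) (g : ℤ) (x : β) (P : ℕ) : Prop :=
  ∃ b : ℕ, LEv W g x P b ∨ REv W g x P b

/-- blocked by a square of half-length at most 5 -/
def Near {β : Type*} (W : ℤ → β) (z : ℤ × β) : Prop := ∃ P : ℕ, P ≤ 5 ∧ Ev W z.1 z.2 P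

/-- x differs from both neighbours of the gap -/
def NonTriv {β : Type*} (W : ℤ → β) (z : ℤ × β) : Prop := z.2 ≠ W (z.1 - 1) ∧ z.2 ≠ W z.1

/-- maximal run of matches W i = W (i + p), i in [s, s + k) -/
structure Run where
  p : ℕ
  s : ℕ
  k : ℕ
deriving DecidableEq

def IsRun {β : Type*} (W : ℤ → β) (r : Run) : Prop :=
  1 ≤ r.p ∧ 1 ≤ r.k ∧ (∀ i : ℕ, i < r.k → W (r.s + i) = W (r.s + i + r.p)) ∧
  W (r.s - 1) ≠ W (r.s - 1 + r.p) ∧ W (r.s + r.k) ≠ W (r.s + r.k + r.p)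

open Classical in
/-- the finite set of all runs -/
noncomputable def Runs {β : Type*} (W : ℤ → β) (n : ℕ) : Finset Run :=
  ((Finset.range (n + 1) ×ˢ Finset.range (n + 1) ×ˢ Finset.range (n + 1)).image
    (fun t => (⟨t.1, t.2.1, t.2.2⟩ : Run))).filter (fun r => IsRun W r)

/-- the number of runs with p = 4, k = 3 -/
noncomputable def N43 {β : Type*} (W : ℤ → β) (n : ℕ) : ℕ :=
  ((Runs W n).filter (fun r => r.p = 4 ∧ r.k = 3)).card

/-- the diamond of a run at the height y has width wd y r -/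
def wd (y : ℕ) (r : Run) : ℕ := (r.k + 1) - (max y r.p - min y r.p)

/-- the conflict relation for runs r, r' with r.p < r'.p -/
def Conf (r r' : Run) : Prop :=
  r.p + (r.k + 1) ≤ r'.p ∨ r.p + (r'.k + 1) ≤ r'.p ∨ 3 * r.p + (r.k + 1) + (r'.k + 1) ≤ 3 * r'.p

/-- the four pairs (gap, letter) which a run can help to block -/
def Rol {β : Type*} (W : ℤ → β) (i : Fin 4) (r : Run) : ℤ × β :=
  if i = 0 then ((r.s : ℤ) + r.k, W (r.s + r.k + r.p))
  else if i = 1 then ((r.s : ℤ), W (r.s + r.p - 1))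
  else if i = 2 then ((r.s : ℤ) + r.p + r.k, W (r.s + r.k))
  else ((r.s : ℤ) + r.p, W (r.s - 1))

/-- the partner of the run is present; Q is a condition on the half-length of the square (r.p + 1 or r.p) -/
def Vrol {β : Type*} (W : ℤ → β) (Q : ℕ → Prop) (i : Fin 4) (r : Run) : Prop :=
  if i = 0 then Q (r.p + 1) ∧ ∀ t : ℕ, t + r.k < r.p → W (r.s + r.k + t) = W (r.s + r.k + t + (r.p + 1))
  else if i = 1 then Q r.p ∧ ∀ t : ℕ, t + r.k + 1 < r.p → W (r.s - 1 - t) = W (r.s - 1 - t + (r.p - 1))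
  else if i = 2 then Q r.p ∧ ∀ t : ℕ, t + r.k + 1 < r.p → W (r.s + r.k + 1 + t) = W (r.s + r.k + r.p + t)
  else Q (r.p + 1) ∧ ∀ t : ℕ, t + r.k < r.p → W (r.s - 2 - t) = W (r.s + r.p - 1 - t)

open Classical in
/-- number of the roles of r which block a pair in Z -/
noncomputable def cnt {β : Type*} (W : ℤ → β) (Q : ℕ → Prop) (Z : Finset (ℤ × β)) (r : Run) : ℕ :=
  (Finset.univ.filter (fun i : Fin 4 => Vrol W Q i r ∧ Rol W i r ∈ Z)).card

end Pool.Agent.SQF
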