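import Mathlib
import Pool.Agent.SQF.Def

/-!
Basic facts on runs.

(1) k_lt: a run has k < p. If p ≤ k then W (s+i) = W (s+i+p) for all i < p: a square of half-length p at s, contradiction to Sqf.
(2) bound: W (s+i) = W (s+i+p), p ≥ 1, so by Fresh both positions are in [0,n) (for i = 0: s is a natural number, fine; for
    i = k-1: s+k-1+p < n, since otherwise the letter at the position s+k-1+p ≥ n would be fresh, but it equals the letter at
    s+k-1). So s + k + p ≤ n.
(3) mem_Runs: by (1), (2) all components are ≤ n.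
(4) exists_run: for an integer start s: W s = W (s+p) and Fresh give 0 ≤ s; take r = ⟨p, s.toNat, k⟩.
(5) run_of_bound: match lengths are finite: if W (g+t) = W (g+t+p) for t = 0 then there is a maximal k ≥ 1 with the matches for all
    t < k and a mismatch at t = k; k < p by Sqf. (Nat.find of the first mismatch; a mismatch exists among t < p by Sqf.)
    The same to the left.
-/

set_option autoImplicit false

namespace Pool.Agent.SQF

variable {β : Type*} {W : ℤ → β} {n : ℕ}

theorem IsRun.k_lt (hW : Sqf W) {r : Run} (h : IsRun W r) : r.k < r.p := by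
  by_contra hcon
  push Not at hcon
  obtain ⟨i, hi, hne⟩ := hW r.s r.p h.1
  exact hne (h.2.2.1 i (lt_of_lt_of_le hi hcon))

theorem IsRun.bound (hF : Fresh W n) {r : Run} (h : IsRun W r) : r.s + r.k + r.p ≤ n := by
  obtain ⟨hp, hk, hm, _, _⟩ := h
  by_contra hcon
  push Not at hcon
  have h1 := hm (r.k - 1) (by omega)
  refine hF ((r.s : ℤ) + ((r.k - 1 : ℕ) : ℤ) + r.p) (Or.inr ?_) ((r.s : ℤ) + ((r.k - 1 : ℕ) : ℤ)) ?_ h1
  · have h2 : n < r.s + r.k + r.p := hcon
    omega
  · omega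

theorem mem_Runs (hF : Fresh W n) (r : Run) : r ∈ Runs W n ↔ IsRun W r := by
  classical
  constructor
  · intro h
    unfold Runs at h
    rw [Finset.mem_filter] at h
    exact h.2
  · intro h
    have hb := IsRun.bound hF h
    unfold Runs
    rw [Finset.mem_filter]
    refine ⟨?_, h⟩
    rw [Finset.mem_image]
    refine ⟨(r.p, r.s, r.k), ?_, rfl⟩
    rw [Finset.mem_product, Finset.mem_product, Finset.mem_range, Finset.mem_range, Finset.mem_range]
    refine ⟨?_, ?_, ?_⟩
    · show r.p < n + 1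
      omega
    · show r.s < n + 1
      omega
    · show r.k < n + 1
      omega

theorem exists_run (hF : Fresh W n) (p k : ℕ) (s : ℤ) (hp : 1 ≤ p) (hk : 1 ≤ k)
    (h1 : ∀ i : ℕ, i < k → W (s + i) = W (s + i + p)) (h2 : W (s - 1) ≠ W (s - 1 + p))
    (h3 : W (s + k) ≠ W (s + k + p)) : ∃ r : Run, IsRun W r ∧ r.p = p ∧ r.k = k ∧ (r.s : ℤ) = s := by
  have hs : 0 ≤ s := by
    by_contra hcon
    push Not at hcon
    have h4 := h1 0 hk
    simp only [Nat.cast_zero, add_zero] at h4
    exact hF s (Or.inl hcon) (s + p) (by omega) h4.symm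
  have hs' : ((s.toNat : ℕ) : ℤ) = s := Int.toNat_of_nonneg hs
  refine ⟨⟨p, s.toNat, k⟩, ⟨hp, hk, ?_, ?_, ?_⟩, rfl, rfl, hs'⟩
  · intro i hi
    show W (((s.toNat : ℕ) : ℤ) + i) = W (((s.toNat : ℕ) : ℤ) + i + p)
    rw [hs']
    exact h1 i hi
  · show W (((s.toNat : ℕ) : ℤ) - 1) ≠ W (((s.toNat : ℕ) : ℤ) - 1 + p)
    rw [hs']
    exact h2
  · show W (((s.toNat : ℕ) : ℤ) + k) ≠ W (((s.toNat : ℕ) : ℤ) + k + p)
    rw [hs']
    exact h3

/-- length of the match to the right of g with the shift p -/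
theorem match_right (hW : Sqf W) (g : ℤ) (p : ℕ) (hp : 1 ≤ p) :
    ∃ k : ℕ, k < p ∧ (∀ t : ℕ, t < k → W (g + t) = W (g + t + p)) ∧ W (g + k) ≠ W (g + k + p) := by
  classical
  obtain ⟨i, hi, hne⟩ := hW g p hp
  have hex : ∃ t : ℕ, W (g + t) ≠ W (g + t + p) := ⟨i, hne⟩
  refine ⟨Nat.find hex, lt_of_le_of_lt (Nat.find_min' hex hne) hi, ?_, Nat.find_spec hex⟩
  intro t ht
  have := Nat.find_min hex ht
  push Not at this
  exact this

/-- length of the match to the left of g with the shift p -/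
theorem match_left (hW : Sqf W) (g : ℤ) (p : ℕ) (hp : 1 ≤ p) :
    ∃ k : ℕ, k < p ∧ (∀ t : ℕ, t < k → W (g - 1 - t) = W (g - 1 - t + p)) ∧
      W (g - 1 - k) ≠ W (g - 1 - k + p) := by
  classical
  obtain ⟨i, hi, hne⟩ := hW (g - p) p hp
  have hne' : W (g - 1 - ((p - 1 - i : ℕ) : ℤ)) ≠ W (g - 1 - ((p - 1 - i : ℕ) : ℤ) + p) := by
    have e : g - 1 - ((p - 1 - i : ℕ) : ℤ) = g - p + i := by omega
    rw [e]
    exact hne
  have hex : ∃ t : ℕ, W (g - 1 - t) ≠ W (g - 1 - t + p) := ⟨p - 1 - i, hne'⟩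
  refine ⟨Nat.find hex, lt_of_le_of_lt (Nat.find_min' hex hne') (by omega), ?_, Nat.find_spec hex⟩
  intro t ht
  have := Nat.find_min hex ht
  push Not at this
  exact this

end Pool.Agent.SQF
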