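import Mathlib
import Pool.Agent.SQF.A1

/-!
EXCLUSION. Write E = [s, s+k), F = [s+p, s+p+k), K = k+1, c = 2s + k + p; the same with primes; D = p' - p.

(1) D ≥ 1. If an interval of D integers lies in E ∩ E' then W (i+p) = W i = W (i+p') there, so W j = W (j+D) for D consecutive
    j = i+p: a square of half-length D. So |E ∩ E'| ≤ D-1; the same for |F ∩ F'| (W (j-p) = W j = W (j-p')).
    Hence each of min (s+k) (s'+k') - max s s' ≤ D-1 and min (s+p+k) (s'+p'+k') - max (s+p) (s'+p') ≤ D-1.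
(2) Not Conf r r' means D < K, D < K' and 3D < K+K'. Since D-1 < k and D-1 < k', the first inequality of (1) gives
    (a) s' ≥ s+k-D+1 or (b) s ≥ s'+k'-D+1; the second one gives (a') s' ≥ s+k-2D+1 or (b') s ≥ s'+k'+1.
    (a): c'-c = 2(s'-s)+(k'-k)+D ≥ k+k'-D+2 = K+K'-D.   (b'): c-c' = 2(s-s')+k-k'-D ≥ k+k'+2-D = K+K'-D.
    Otherwise (b) and (a') hold, the sum gives 0 ≥ k+k'-3D+2, i.e. 3D ≥ K+K', a contradiction.
(3) p = p', r ≠ r': then s ≠ s' or k ≠ k'. If s = s' the lengths agree (first mismatch). If s < s': the position s' - 1 ≥ s is a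
    mismatch, so it is not in E: s'-1 ≥ s+k. So c'-c = 2(s'-s)+k'-k ≥ 2k+2+k'-k = K+K'.
Everything after the two overlap inequalities is linear arithmetic (omega).
-/

set_option autoImplicit false

namespace Pool.Agent.SQF

variable {β : Type*} {W : ℤ → β} {n : ℕ}

/-- centre of a run -/
def cen (r : Run) : ℤ := 2 * (r.s : ℤ) + r.k + r.p

private theorem runInt52 {r : Run} (h : IsRun W r) {i : ℤ} (h1 : (r.s : ℤ) ≤ i)
    (h2 : i < r.s + r.k) : W i = W (i + r.p) := by
  have h3 := h.2.2.1 (i - r.s).toNat (by omega)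
  have e1 : (r.s : ℤ) + ((i - r.s).toNat : ℤ) = i := by omega
  rw [e1] at h3
  exact h3

private theorem ovlE52 (hW : Sqf W) {r r' : Run} (h : IsRun W r) (h' : IsRun W r')
    (hp : r.p < r'.p) :
    min ((r.s : ℤ) + r.k) (r'.s + r'.k) - max (r.s : ℤ) r'.s < (r'.p : ℤ) - r.p := by
  by_contra hcon
  push Not at hcon
  obtain ⟨m, hm⟩ : ∃ m : ℤ, m = max (r.s : ℤ) r'.s := ⟨_, rfl⟩
  obtain ⟨t, ht, hne⟩ := hW (m + r.p) (r'.p - r.p) (by omega)
  apply hne
  have e1 := runInt52 h (i := m + t) (by omega) (by omega)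
  have e2 := runInt52 h' (i := m + t) (by omega) (by omega)
  have g1 : m + (r.p : ℤ) + (t : ℤ) = m + t + r.p := by ring
  have g2 : m + (r.p : ℤ) + (t : ℤ) + ((r'.p - r.p : ℕ) : ℤ) = m + t + r'.p := by
    rw [Nat.cast_sub hp.le]
    ring
  rw [g2, g1, ← e1, ← e2]

private theorem ovlF52 (hW : Sqf W) {r r' : Run} (h : IsRun W r) (h' : IsRun W r')
    (hp : r.p < r'.p) :
    min ((r.s : ℤ) + r.p + r.k) (r'.s + r'.p + r'.k) - max ((r.s : ℤ) + r.p) (r'.s + r'.p)
      < (r'.p : ℤ) - r.p := by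
  by_contra hcon
  push Not at hcon
  obtain ⟨m, hm⟩ : ∃ m : ℤ, m = max ((r.s : ℤ) + r.p) (r'.s + r'.p) := ⟨_, rfl⟩
  obtain ⟨t, ht, hne⟩ := hW (m - r'.p) (r'.p - r.p) (by omega)
  apply hne
  have e1 := runInt52 h (i := m + t - r.p) (by omega) (by omega)
  have e2 := runInt52 h' (i := m + t - r'.p) (by omega) (by omega)
  rw [sub_add_cancel] at e1 e2
  have g1 : m - (r'.p : ℤ) + (t : ℤ) = m + t - r'.p := by ring
  have g2 : m - (r'.p : ℤ) + (t : ℤ) + ((r'.p - r.p : ℕ) : ℤ) = m + t - r.p := by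
    rw [Nat.cast_sub hp.le]
    ring
  rw [g2, g1, e1, e2]

private theorem exclLt52 {r r' : Run} (h : IsRun W r) (h' : IsRun W r')
    (hp : r.p = r'.p) (hs : r.s < r'.s) :
    ((r.k : ℤ) + 1) + (r'.k + 1) ≤ cen r' - cen r := by
  have h1 : (r.s : ℤ) + r.k ≤ r'.s - 1 := by
    by_contra hcon
    push Not at hcon
    have e1 := runInt52 h (i := (r'.s : ℤ) - 1) (by omega) hcon
    have e2 := h'.2.2.2.1
    rw [← hp] at e2
    exact e2 e1
  unfold cen
  omega

private theorem exclK52 {r r' : Run} (h : IsRun W r) (h' : IsRun W r')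
    (hp : r.p = r'.p) (hs : r.s = r'.s) (hk : r.k < r'.k) : False := by
  have e1 := runInt52 h' (i := (r.s : ℤ) + r.k) (by omega) (by omega)
  have e2 := h.2.2.2.2
  rw [← hp] at e1
  exact e2 e1

theorem excl (hW : Sqf W) {r r' : Run} (h : IsRun W r) (h' : IsRun W r') (hp : r.p < r'.p) (hc : ¬ Conf r r') :
    ((r.k : ℤ) + 1) + (r'.k + 1) - ((r'.p : ℤ) - r.p) ≤ |cen r' - cen r| := by
  have h1 := ovlE52 hW h h' hp
  have h2 := ovlF52 hW h h' hp
  unfold Conf at hc
  rw [le_abs]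
  unfold cen
  omega

theorem excl_eq (hW : Sqf W) {r r' : Run} (h : IsRun W r) (h' : IsRun W r') (hp : r.p = r'.p) (hne : r ≠ r') :
    ((r.k : ℤ) + 1) + (r'.k + 1) ≤ |cen r' - cen r| := by
  rw [le_abs]
  rcases lt_trichotomy r.s r'.s with hs | hs | hs
  · left
    exact exclLt52 h h' hp hs
  · exfalso
    rcases lt_trichotomy r.k r'.k with hk | hk | hk
    · exact exclK52 h h' hp hs hk
    · apply hne
      cases r
      cases r'
      simp only [Run.mk.injEq]
      exact ⟨hp, hs, hk⟩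
    · exact exclK52 h' h hp.symm hs.symm hk
  · right
    have h1 := exclLt52 h' h hp.symm hs
    linarith

end Pool.Agent.SQF
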