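import Mathlib
import Pool.Agent.SQF.A2

/-!
HEIGHT INEQUALITY. For r in R let w = wd y r ≥ 1, so (in ℤ) w = k + 1 - |y - p|. The integer intervals
I r = [cen r - w, cen r + w) (2w integers) are pairwise disjoint: for r ≠ r' with p = p' by excl_eq (w + w' ≤ K + K'), for
p < p' by excl: w + w' = K + K' - |y-p| - |y-p'| ≤ K + K' - (p'-p) ≤ |cen r' - cen r|. (Two intervals
[c-w,c+w), [c'-w',c'+w') with |c-c'| ≥ w+w' are disjoint.)
All are in [0, 2n): cen r - w = 2s + p - 1 + |y-p| ≥ 2s + y - 1 ≥ 0 because p + |y-p| ≥ y ≥ 1;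
cen r + w = 2(s+k+p) + 1 - p - |y-p| ≤ 2n + 1 - y ≤ 2n (bound of A1).
So Σ 2 w ≤ 2n (Finset.card_biUnion with Finset.Ico in ℤ, Finset.card_le_card).
-/

set_option autoImplicit false

namespace Pool.Agent.SQF

variable {β : Type*} {W : ℤ → β} {n : ℕ}

private theorem disj76 {c c' w w' : ℤ} (h : w + w' ≤ |c' - c|) :
    Disjoint (Finset.Ico (c - w) (c + w)) (Finset.Ico (c' - w') (c' + w')) := by
  rw [Finset.disjoint_left]
  intro x hx hx'
  rw [Finset.mem_Ico] at hx hx'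
  rcases le_total 0 (c' - c) with h1 | h1
  · rw [abs_of_nonneg h1] at h
    omega
  · rw [abs_of_nonpos h1] at h
    omega

theorem height (hW : Sqf W) (hF : Fresh W n) (y : ℕ) (hy : 1 ≤ y) (R : Finset Run)
    (hR : ∀ r ∈ R, IsRun W r) (hpos : ∀ r ∈ R, 1 ≤ wd y r)
    (hc : ∀ r ∈ R, ∀ r' ∈ R, r.p < r'.p → ¬ Conf r r') : ∑ r ∈ R, wd y r ≤ n := by
  classical
  obtain ⟨I, hI⟩ : ∃ I : Run → Finset ℤ,
    I = fun r => Finset.Ico (cen r - (wd y r : ℤ)) (cen r + (wd y r : ℤ)) := ⟨_, rfl⟩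
  have hcard : ∀ r, (I r).card = 2 * wd y r := by
    intro r
    rw [hI]
    simp only [Int.card_Ico]
    omega
  have hlt : ∀ r ∈ R, ∀ r' ∈ R, r.p < r'.p → Disjoint (I r) (I r') := by
    intro r hr r' hr' hp
    have h1 := excl hW (hR r hr) (hR r' hr') hp (hc r hr r' hr' hp)
    have h2 := hpos r hr
    have h3 := hpos r' hr'
    rw [hI]
    refine disj76 (le_trans ?_ h1)
    unfold wd at h2 h3 ⊢
    omega
  have hdis : ∀ r ∈ R, ∀ r' ∈ R, r ≠ r' → Disjoint (I r) (I r') := by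
    intro r hr r' hr' hne
    rcases lt_trichotomy r.p r'.p with h | h | h
    · exact hlt r hr r' hr' h
    · have h1 := excl_eq hW (hR r hr) (hR r' hr') h hne
      rw [hI]
      refine disj76 (le_trans ?_ h1)
      unfold wd
      omega
    · exact (hlt r' hr' r hr h).symm
  have hsub : R.biUnion I ⊆ Finset.Ico (0 : ℤ) (2 * n) := by
    intro x hx
    rw [Finset.mem_biUnion] at hx
    obtain ⟨r, hr, hx⟩ := hx
    rw [hI] at hx
    simp only [Finset.mem_Ico] at hx ⊢
    have h1 := (hR r hr).bound hF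
    have h2 := hpos r hr
    unfold wd cen at *
    omega
  have h1 : (R.biUnion I).card = ∑ r ∈ R, 2 * wd y r := by
    rw [Finset.card_biUnion hdis]
    exact Finset.sum_congr rfl fun r _ => hcard r
  have h2 := Finset.card_le_card hsub
  rw [h1, ← Finset.mul_sum, Int.card_Ico] at h2
  omega

end Pool.Agent.SQF
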