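import Mathlib
import Pool.Agent.SQF.A1

/-!
AT MOST TWO ROLES. r = (p,s,k) a run with k + 2 ≤ p.

(02) Vrol 0 and Vrol 2. Put B i = W (s+k+i). Vrol 0: W (s+k+p+1+i) = B i for i < p-k (at least i = 0, 1). Vrol 2:
     W (s+k+p+i) = B (i+1) for i < p-1-k (at least i = 0).
     If k + 3 ≤ p: i = 0,1,2 are allowed in Vrol 0 and i = 0,1 in Vrol 2; W (s+k+p+1) = B 0 = B 2. So the letters at
     s+k+p, ..., s+k+p+3 are B 1, B 0, B 1, B 2 = B 0: a square of half-length 2: contradiction to Sqf.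
     If k + 2 = p: the pair Rol 2 = (s+p+k, B 0) =: (g, x) is near: W g = B 1, W (g+1) = B 0, W (g+2) = B 1:
     LEv with P = 2, b = 0: W (g+2-1) = x and W (g+0) = W (g+0+2).
     So Vrol 0, Vrol 2 and Rol 2 ∈ Z (no near pairs in Z) is impossible.
(13) mirror image. Put D i = W (s+p-i). Vrol 3: W (s-1-i) = D i for 1 ≤ i ≤ p-k (t = i-1). Vrol 1: W (s-i) = D (i+1) for
     1 ≤ i ≤ p-1-k (t = i-1: W (s-1-t) = W (s-1-t+(p-1)) = W (s+p-(i+1))).
     If k + 3 ≤ p: W (s-2) = D 1 = D 3, W (s-1) = D 2, W (s-3) = D 2, W (s-4) = D 3 = D 1: the letters at s-4..s-1 are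
     D 1, D 2, D 1, D 2: square of half-length 2.
     If k + 2 = p: Rol 1 = (s, W (s+p-1)) = (s, D 1); W (s-1) = D 2, W (s-2) = D 1, W (s-3) = D 2: REv with P = 2, b = 1:
     W (s-2) = D 1 = x, W (s-1) = W (s-1-2). So Rol 1 is near.
Hence cnt ≤ 2: the filter contains at most one of {0,2} and at most one of {1,3}.
-/

set_option autoImplicit false

namespace Pool.Agent.SQF

variable {β : Type*} {W : ℤ → β} {n : ℕ}

private theorem vrol0 {Q : ℕ → Prop} {r : Run} (h : Vrol W Q 0 r) :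
    Q (r.p + 1) ∧ ∀ t : ℕ, t + r.k < r.p → W (r.s + r.k + t) = W (r.s + r.k + t + (r.p + 1)) := by
  unfold Vrol at h
  rwa [if_pos rfl] at h

private theorem vrol1 {Q : ℕ → Prop} {r : Run} (h : Vrol W Q 1 r) :
    Q r.p ∧ ∀ t : ℕ, t + r.k + 1 < r.p → W (r.s - 1 - t) = W (r.s - 1 - t + (r.p - 1)) := by
  unfold Vrol at h
  rwa [if_neg (by decide), if_pos rfl] at h

private theorem vrol2 {Q : ℕ → Prop} {r : Run} (h : Vrol W Q 2 r) :
    Q r.p ∧ ∀ t : ℕ, t + r.k + 1 < r.p → W (r.s + r.k + 1 + t) = W (r.s + r.k + r.p + t) := by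
  unfold Vrol at h
  rwa [if_neg (by decide), if_neg (by decide), if_pos rfl] at h

private theorem vrol3 {Q : ℕ → Prop} {r : Run} (h : Vrol W Q 3 r) :
    Q (r.p + 1) ∧ ∀ t : ℕ, t + r.k < r.p → W (r.s - 2 - t) = W (r.s + r.p - 1 - t) := by
  unfold Vrol at h
  rwa [if_neg (by decide), if_neg (by decide), if_neg (by decide)] at h

private theorem near2 {Q : ℕ → Prop} {r : Run} (hk : r.k + 2 ≤ r.p) (h0 : Vrol W Q 0 r)
    (h2 : Vrol W Q 2 r) : Near W (Rol W 2 r) := by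
  have e : Rol W 2 r = ((r.s : ℤ) + r.p + r.k, W (r.s + r.k)) := by
    unfold Rol
    rw [if_neg (by decide), if_neg (by decide), if_pos rfl]
  have a0 := (vrol0 h0).2 0 (by omega)
  have a1 := (vrol0 h0).2 1 (by omega)
  have b0 := (vrol2 h2).2 0 (by omega)
  push_cast at a0 a1 b0
  rw [e]
  refine ⟨2, by norm_num, 0, Or.inl ⟨by norm_num, ?_, fun t ht => by omega, ?_⟩⟩
  · show W ((r.s : ℤ) + r.p + r.k + (2 : ℕ) - 1) = W (r.s + r.k)
    rw [show (r.s : ℤ) + r.p + r.k + (2 : ℕ) - 1 = r.s + r.k + 0 + (r.p + 1) by push_cast; ring,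
      ← a0, add_zero]
  · intro t ht
    have : t = 0 := by omega
    subst this
    show W ((r.s : ℤ) + r.p + r.k + (0 : ℕ)) = W ((r.s : ℤ) + r.p + r.k + (0 : ℕ) + (2 : ℕ))
    rw [show (r.s : ℤ) + r.p + r.k + (0 : ℕ) + (2 : ℕ) = r.s + r.k + 1 + (r.p + 1) by
        push_cast; ring, ← a1,
      show (r.s : ℤ) + r.p + r.k + (0 : ℕ) = r.s + r.k + r.p + 0 by push_cast; ring, ← b0, add_zero]

private theorem near1 {Q : ℕ → Prop} {r : Run} (hk : r.k + 2 ≤ r.p) (h1 : Vrol W Q 1 r)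
    (h3 : Vrol W Q 3 r) : Near W (Rol W 1 r) := by
  have e : Rol W 1 r = ((r.s : ℤ), W (r.s + r.p - 1)) := by
    unfold Rol
    rw [if_neg (by decide), if_pos rfl]
  have a0 := (vrol3 h3).2 0 (by omega)
  have a1 := (vrol3 h3).2 1 (by omega)
  have b0 := (vrol1 h1).2 0 (by omega)
  push_cast at a0 a1 b0
  rw [e]
  refine ⟨2, by norm_num, 1, Or.inr ⟨by norm_num, by norm_num, ?_, ?_, fun t ht => by omega⟩⟩
  · show W ((r.s : ℤ) - (2 : ℕ)) = W (r.s + r.p - 1)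
    rw [show (r.s : ℤ) - (2 : ℕ) = r.s - 2 - 0 by push_cast; ring, a0, sub_zero]
  · intro t ht
    have : t = 0 := by omega
    subst this
    show W ((r.s : ℤ) - 1 - (0 : ℕ)) = W ((r.s : ℤ) - 1 - (0 : ℕ) - (2 : ℕ))
    rw [show (r.s : ℤ) - 1 - (0 : ℕ) - (2 : ℕ) = r.s - 2 - 1 by push_cast; ring, a1,
      show (r.s : ℤ) - 1 - (0 : ℕ) = r.s - 1 - 0 by push_cast; ring, b0]
    congr 1
    ring

private theorem card_fin4 : ∀ S : Finset (Fin 4), ¬ ((0 : Fin 4) ∈ S ∧ (2 : Fin 4) ∈ S) →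
    ¬ ((1 : Fin 4) ∈ S ∧ (3 : Fin 4) ∈ S) → S.card ≤ 2 := by
  decide

theorem cnt_le_two (hW : Sqf W) {r : Run} (h : IsRun W r) (hk : r.k + 2 ≤ r.p) (Q : ℕ → Prop)
    (Z : Finset (ℤ × β)) (hZ : ∀ z ∈ Z, ¬ Near W z) : cnt W Q Z r ≤ 2 := by
  classical
  unfold cnt
  refine card_fin4 _ ?_ ?_
  · rintro ⟨h0, h2⟩
    rw [Finset.mem_filter] at h0 h2
    exact hZ _ h2.2.2 (near2 hk h0.2.1 h2.2.1)
  · rintro ⟨h1, h3⟩
    rw [Finset.mem_filter] at h1 h3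
    exact hZ _ h1.2.2 (near1 hk h1.2.1 h3.2.1)

theorem cnt_le_four (Q : ℕ → Prop) (Z : Finset (ℤ × β)) (r : Run) : cnt W Q Z r ≤ 4 := by
  classical
  unfold cnt
  exact (Finset.card_filter_le _ _).trans (by simp)

/-- roles 1, 2 need Q r.p -/
theorem cnt_le_two_of_not (Q : ℕ → Prop) (Z : Finset (ℤ × β)) (r : Run) (hQ : ¬ Q r.p) : cnt W Q Z r ≤ 2 := by
  classical
  unfold cnt
  refine card_fin4 _ ?_ ?_
  · rintro ⟨-, h2⟩
    rw [Finset.mem_filter] at h2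
    exact hQ (vrol2 h2.2.1).1
  · rintro ⟨h1, -⟩
    rw [Finset.mem_filter] at h1
    exact hQ (vrol1 h1.2.1).1

theorem cnt_eq_zero (Q : ℕ → Prop) (Z : Finset (ℤ × β)) (r : Run) (hQ : ¬ Q r.p) (hQ' : ¬ Q (r.p + 1)) :
    cnt W Q Z r = 0 := by
  classical
  unfold cnt
  rw [Finset.card_eq_zero, Finset.filter_eq_empty_iff]
  rintro i - ⟨hi, -⟩
  fin_cases i
  · exact hQ' (vrol0 hi).1
  · exact hQ (vrol1 hi).1
  · exact hQ (vrol2 hi).1
  · exact hQ' (vrol3 hi).1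

end Pool.Agent.SQF
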