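import Mathlib
import Pool.Agent.SQF.A1

/-!
FROM EVENTS TO RUNS. Let x be nontrivial at the gap g and let the inserted letter lie in a square of half-length P ≥ 2.

L-case: x = W (g+P-1), shift P-1 matches at g-1-t (t < b0), shift P matches at g+t (t < P-1-b0), b0 + 2 ≤ P.
 b := match_left g (P-1), a := match_right g P. Then b ≥ b0 and a ≥ P-1-b0 ≥ 1 (the first mismatch is not earlier), so a+b ≥ P-1;
 b < P-1, a < P.
 - run with period P-1 (only if b ≥ 1): start s = g-b, length b. Left end maximal by match_left; right end: W g ≠ W (g+(P-1)) = x by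
   nontriviality. Role 0: s+k = g, Rol 0 = (g, W (g+(P-1))) = (g,x); Vrol 0: Q (P-1+1) = Q P and for t + b < P-1 the matches
   W (g+t) = W (g+t+P) hold because a ≥ P-1-b.
 - run with period P: start s = g, length a; left end: W (g-1) ≠ W (g-1+P) = x. Role 1: (g, W (g+P-1)) = (g,x); Vrol 1: for
   t + a + 1 < P the matches W (g-1-t) = W (g-1-t+(P-1)) because b ≥ P-1-a.
R-case: x = W (g-P), shift P matches at g-1-t (t < b0) (W (g-1-t) = W (g-1-t-P)), shift P-1 matches W (g+t) = W (g+t-(P-1)).
 a := match_left (g-P) P (positions g-P-1-t with g-1-t), b := match_right (g-(P-1)) (P-1) (positions g-(P-1)+t with g+t).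
 a ≥ b0 ≥ 1, b ≥ P-1-b0, b < P-1, a < P.
 - run with period P: start g-P-a, length a; right end: W (g-P) = x ≠ W g. Role 2: (s+p+k, W (s+k)) = (g, W (g-P)). Vrol 2: for
   t+a+1 < P: W (g-P+1+t) = W (g+t) since b ≥ P-1-a.
 - run with period P-1 (if b ≥ 1): start g-(P-1), length b; left end: W (g-P) = x ≠ W (g-1). Role 3: (s+p, W (s-1)) = (g, W (g-P)).
   Vrol 3: Q (P-1+1) and for t + b < P-1: W (s-2-t) = W (g-P-1-t) = W (g-1-t) = W (s+p-1-t) since a ≥ P-1-b.
The runs (r.s natural) come from exists_run (A1). For b = 0 nothing is claimed on the run with period P-1.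
-/

set_option autoImplicit false

namespace Pool.Agent.SQF

variable {β : Type*} {W : ℤ → β} {n : ℕ}

theorem ev_roles (hW : Sqf W) (hF : Fresh W n) {g : ℤ} {x : β} {P : ℕ} (hnt : NonTriv W (g, x)) (hP : 2 ≤ P)
    (h : Ev W g x P) (Q : ℕ → Prop) (hQ : Q P) :
    ∃ (i j : Fin 4) (b a : ℕ), b + 2 ≤ P ∧ a + 1 ≤ P ∧ P ≤ a + b + 1 ∧
      (1 ≤ b → ∃ r, IsRun W r ∧ r.p = P - 1 ∧ r.k = b ∧ Vrol W Q i r ∧ Rol W i r = (g, x)) ∧
      (∃ r, IsRun W r ∧ r.p = P ∧ r.k = a ∧ Vrol W Q j r ∧ Rol W j r = (g, x)) := by
  obtain ⟨hn1, hn2⟩ := hnt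
  simp only at hn1 hn2
  obtain ⟨b0, hL | hR⟩ := h
  · obtain ⟨hb0, hx, hl, hr⟩ := hL
    obtain ⟨b, hbP, hb, hb'⟩ := match_left hW g (P - 1) (by omega)
    obtain ⟨a, haP, ha, ha'⟩ := match_right hW g P (by omega)
    have hbb : b0 ≤ b := by
      by_contra hc
      apply hb'
      convert hl b (by omega) using 2
      omega
    have haa : P ≤ a + b0 + 1 := by
      by_contra hc
      exact ha' (hr a (by omega))
    have hx' : W (g + ((P - 1 : ℕ) : ℤ)) = x := by
      rw [← hx]
      congr 1
      omega
    refine ⟨0, 1, b, a, by omega, by omega, by omega, fun hb1 => ?_, ?_⟩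
    · obtain ⟨r, hr1, hr2, hr3, hr4⟩ := exists_run hF (P - 1) b (g - b) (by omega) hb1
        (fun i hi => by
          convert hb (b - 1 - i) (by omega) using 2 <;> omega)
        (by convert hb' using 2 <;> omega)
        (by
          rw [sub_add_cancel, hx']
          exact fun h => hn2 h.symm)
      have e1 : (r.s : ℤ) + r.k = g := by omega
      refine ⟨r, hr1, hr2, hr3, ?_, ?_⟩
      · unfold Vrol
        rw [if_pos rfl]
        refine ⟨by rw [hr2, show P - 1 + 1 = P by omega]; exact hQ, fun t ht => ?_⟩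
        rw [e1, ha t (by omega)]
        congr 1
        omega
      · unfold Rol
        rw [if_pos rfl, e1, hr2, hx']
    · obtain ⟨r, hr1, hr2, hr3, hr4⟩ := exists_run hF P a g (by omega) (by omega) ha
        (by
          have e : W (g - 1 + P) = x := by
            rw [← hx]
            congr 1
            omega
          rw [e]
          exact fun h => hn1 h.symm) ha'
      refine ⟨r, hr1, hr2, hr3, ?_, ?_⟩
      · unfold Vrol
        rw [if_neg (by decide), if_pos rfl, hr2]
        refine ⟨hQ, fun t ht => ?_⟩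
        convert hb t (by omega) using 2 <;> omega
      · unfold Rol
        rw [if_neg (by decide), if_pos rfl, hr4, hr2, hx]
  · obtain ⟨hb1, hbP0, hx, hl, hr⟩ := hR
    obtain ⟨a, haP, ha, ha'⟩ := match_left hW (g - P) P (by omega)
    obtain ⟨b, hbP, hb, hb'⟩ := match_right hW (g - ((P - 1 : ℕ) : ℤ)) (P - 1) (by omega)
    have haa : b0 ≤ a := by
      by_contra hc
      apply ha'
      have := hl a (by omega)
      have e1 : g - (P : ℤ) - 1 - a = g - 1 - a - P := by omega
      have e2 : g - (P : ℤ) - 1 - a + P = g - 1 - a := by omega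
      rw [e1, ← this]
      congr 1
      omega
    have hbb : P ≤ b + b0 + 1 := by
      by_contra hc
      apply hb'
      have := hr b (by omega)
      have e1 : g - ((P - 1 : ℕ) : ℤ) + b = g + b - (P - 1) := by omega
      rw [e1, ← this]
      congr 1
      omega
    refine ⟨3, 2, b, a, by omega, by omega, by omega, fun hb1' => ?_, ?_⟩
    · obtain ⟨r, hr1, hr2, hr3, hr4⟩ := exists_run hF (P - 1) b (g - ((P - 1 : ℕ) : ℤ)) (by omega) hb1' hb
        (by
          have e1 : g - ((P - 1 : ℕ) : ℤ) - 1 = g - P := by omega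
          have e2 : g - ((P - 1 : ℕ) : ℤ) - 1 + ((P - 1 : ℕ) : ℤ) = g - 1 := by omega
          rw [e2, e1, hx]
          exact hn1) hb'
      have e1 : (r.s : ℤ) + r.p = g := by omega
      refine ⟨r, hr1, hr2, hr3, ?_, ?_⟩
      · unfold Vrol
        rw [if_neg (by decide), if_neg (by decide), if_neg (by decide)]
        refine ⟨by rw [hr2, show P - 1 + 1 = P by omega]; exact hQ, fun t ht => ?_⟩
        convert ha t (by omega) using 2 <;> omega
      · unfold Rol
        rw [if_neg (by decide), if_neg (by decide), if_neg (by decide), e1]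
        have e2 : (r.s : ℤ) - 1 = g - P := by omega
        rw [e2, hx]
    · obtain ⟨r, hr1, hr2, hr3, hr4⟩ := exists_run hF P a (g - P - a) (by omega) (by omega)
        (fun i hi => by
          convert ha (a - 1 - i) (by omega) using 2 <;> omega)
        (by convert ha' using 2 <;> omega)
        (by
          have e1 : g - (P : ℤ) - a + a = g - P := by omega
          have e2 : g - (P : ℤ) - a + a + P = g := by omega
          rw [e2, e1, hx]
          exact hn2)
      refine ⟨r, hr1, hr2, hr3, ?_, ?_⟩
      · unfold Vrol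
        rw [if_neg (by decide), if_neg (by decide), if_pos rfl]
        refine ⟨by rw [hr2]; exact hQ, fun t ht => ?_⟩
        convert hb t (by omega) using 2 <;> omega
      · unfold Rol
        rw [if_neg (by decide), if_neg (by decide), if_pos rfl]
        have e1 : (r.s : ℤ) + r.p + r.k = g := by omega
        have e2 : (r.s : ℤ) + r.k = g - P := by omega
        rw [e1, e2, hx]

end Pool.Agent.SQF
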