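import Mathlib
import Pool.Agent.SQF.B1

/-!
DOUBLE COUNTING. For z in Z take P, and i, j, b, a from ev_roles (B1) and its runs r1 (if b ≥ 1), r2. Then
1 ≤ m (P-1) b + m P a (hm) and, as m p 0 = 0 and m ≥ 0, this is at most
Σ_{i : Fin 4} Σ_{r ∈ Runs, Vrol i r, Rol i r = z} m r.p r.k  (r1, r2 are different: their periods are different; so the pairs
(i,r1), (j,r2) are two different terms). Sum over z ∈ Z and exchange the sums: Σ_r m r * Σ_i #{z ∈ Z : Vrol i r, Rol i r = z} =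
Σ_r m r * cnt r.
-/

set_option autoImplicit false

namespace Pool.Agent.SQF

variable {β : Type*} {W : ℤ → β} {n : ℕ}

theorem dcount (hW : Sqf W) (hF : Fresh W n) (Z : Finset (ℤ × β)) (Q : ℕ → Prop) (m : ℕ → ℕ → ℚ)
    (hm0 : ∀ p k, 0 ≤ m p k) (hm00 : ∀ p, m p 0 = 0)
    (hZ : ∀ z ∈ Z, NonTriv W z ∧ ∃ P : ℕ, 6 ≤ P ∧ Q P ∧ Ev W z.1 z.2 P)
    (hm : ∀ P b a : ℕ, 6 ≤ P → Q P → b + 2 ≤ P → a + 1 ≤ P → P ≤ a + b + 1 → 1 ≤ m (P - 1) b + m P a) :
    (Z.card : ℚ) ≤ ∑ r ∈ Runs W n, m r.p r.k * (cnt W Q Z r : ℚ) := by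
  classical
  set f : ℤ × β → Run × Fin 4 → ℚ := fun z x =>
    if Vrol W Q x.2 x.1 ∧ Rol W x.2 x.1 = z then m x.1.p x.1.k else 0 with hf
  have hf0 : ∀ z x, 0 ≤ f z x := by
    intro z x
    rw [hf]
    dsimp only
    split_ifs
    · exact hm0 _ _
    · exact le_refl _
  have key : ∀ z ∈ Z, (1 : ℚ) ≤ ∑ x ∈ Runs W n ×ˢ (Finset.univ : Finset (Fin 4)), f z x := by
    intro z hz
    obtain ⟨hnt, P, hP6, hQ, hEv⟩ := hZ z hz
    obtain ⟨i, j, b, a, hb, ha, hab, h1, r2, hr2, hp2, hk2, hv2, hrol2⟩ :=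
      ev_roles hW hF (g := z.1) (x := z.2) hnt (by omega) hEv Q hQ
    have hmm := hm P b a hP6 hQ hb ha hab
    have hmem2 : (r2, j) ∈ Runs W n ×ˢ (Finset.univ : Finset (Fin 4)) :=
      Finset.mem_product.2 ⟨(mem_Runs hF r2).2 hr2, Finset.mem_univ _⟩
    have hf2 : f z (r2, j) = m P a := by
      rw [hf]
      dsimp only
      rw [if_pos ⟨hv2, hrol2⟩, hp2, hk2]
    rcases Nat.eq_zero_or_pos b with hb0 | hb0
    · subst hb0
      rw [hm00, zero_add] at hmm
      refine hmm.trans ?_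
      rw [← hf2]
      exact Finset.single_le_sum (fun x _ => hf0 z x) hmem2
    · obtain ⟨r1, hr1, hp1, hk1, hv1, hrol1⟩ := h1 hb0
      have hmem1 : (r1, i) ∈ Runs W n ×ˢ (Finset.univ : Finset (Fin 4)) :=
        Finset.mem_product.2 ⟨(mem_Runs hF r1).2 hr1, Finset.mem_univ _⟩
      have hf1 : f z (r1, i) = m (P - 1) b := by
        rw [hf]
        dsimp only
        rw [if_pos ⟨hv1, hrol1⟩, hp1, hk1]
      have hne : (r1, i) ≠ (r2, j) := by
        intro h
        have h2 : r1 = r2 := congrArg Prod.fst h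
        rw [h2, hp2] at hp1
        omega
      have hsub : ({(r1, i), (r2, j)} : Finset (Run × Fin 4)) ⊆
          Runs W n ×ˢ (Finset.univ : Finset (Fin 4)) := by
        intro x hx
        rw [Finset.mem_insert, Finset.mem_singleton] at hx
        rcases hx with rfl | rfl
        · exact hmem1
        · exact hmem2
      refine hmm.trans ?_
      have h3 := Finset.sum_le_sum_of_subset_of_nonneg (f := f z) hsub (fun x _ _ => hf0 z x)
      rw [Finset.sum_pair hne, hf1, hf2] at h3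
      exact h3
  have h4 : (Z.card : ℚ) ≤ ∑ z ∈ Z, ∑ x ∈ Runs W n ×ˢ (Finset.univ : Finset (Fin 4)), f z x := by
    have h5 := Finset.sum_le_sum key
    rwa [Finset.sum_const, nsmul_eq_mul, mul_one] at h5
  refine h4.trans (le_of_eq ?_)
  rw [Finset.sum_comm, Finset.sum_product]
  refine Finset.sum_congr rfl fun r _ => ?_
  have h6 : ∀ i : Fin 4, ∑ z ∈ Z, f z (r, i) =
      if Vrol W Q i r ∧ Rol W i r ∈ Z then m r.p r.k else 0 := by
    intro i
    rw [hf]
    dsimp only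
    by_cases hv : Vrol W Q i r
    · simp only [hv, true_and]
      rw [Finset.sum_ite_eq]
    · simp only [hv, false_and, if_false, Finset.sum_const_zero]
  simp_rw [h6]
  unfold cnt
  rw [← Finset.sum_filter, Finset.sum_const, nsmul_eq_mul, mul_comm]

end Pool.Agent.SQF
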