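import Mathlib

/-!
Square-free words: the weights and the cut functions of the area argument for periods up to 128.
-/

set_option autoImplicit false

namespace Pool.Agent.SQF

/-- the scale of the weights -/
def S : ℕ := 100000

/-- weights of the heights 0, 1, 2, ... -/
def wl : List ℕ := [
  0, 0, 0, 0, 0, 33334, 25423, 1353, 18510, 5092, 9048, 4153,
  5870, 4159, 4898, 1746, 4647, 1659, 707, 3108, 2779, 909, 1534, 1966,
  0, 883, 2332, 1523, 564, 518, 1661, 1012, 831, 0, 0, 1523,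
  552, 0, 950, 264, 1009, 232, 780, 679, 489, 196, 194, 458,
  237, 171, 360, 151, 176, 217, 106, 819, 284, 496, 590, 0,
  0, 0, 0, 578, 0, 371, 0, 0, 0, 418, 0, 0,
  0, 722, 27, 225, 486, 366, 238, 69, 85, 42, 42, 82,
  41, 40, 40, 78, 39, 39, 64, 32, 31, 62, 2, 1,
  1, 0, 396, 434, 208, 351, 0, 147, 390, 0, 0, 0,
  0, 0, 0, 0, 0, 0, 0, 0, 0, 269, 0, 0,
  0, 0, 0, 1344, 70, 0, 10]

def wt (y : ℕ) : ℕ := wl.getD y 0

def f1 (x : ℕ) : ℕ := (7699 * x + 579) / 10000
def f3 (x : ℕ) : ℕ := (3407 * x + 8429) / 10000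
def f4 (x : ℕ) : ℕ := (14210 * x + 11559) / 10000

/-- the run with period p and K = k + 1 uses the heights y with lo p K ≤ y < hi p K -/
def lo (p K : ℕ) : ℕ := max (max (f3 (3 * p - K)) (f1 p)) (f4 (p - K))
def hi (p K : ℕ) : ℕ := min (min (f3 (3 * p + K)) (f1 (p + K))) (f4 p)

/-- width of the diamond at the height y -/
def wid (y p K : ℕ) : ℕ := K - (max y p - min y p)

/-- weighted area -/
def Mt (p K : ℕ) : ℕ :=
  ∑ y ∈ Finset.range 127, if lo p K ≤ y ∧ y < hi p K then wt y * wid y p K else 0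

/-- computable version: weights starting at the height y -/
def msum (p K : ℕ) : List ℕ → ℕ → ℕ
  | [], _ => 0
  | (w :: l), y => w * wid y p K + msum p K l (y + 1)

def Mc (p K : ℕ) : ℕ := msum p K ((wl.drop (lo p K)).take (hi p K - lo p K)) (lo p K)

def rowOK (q : ℕ) : Bool :=
  (List.range (q - 2)).all (fun i => Nat.ble (2 * S) (Mc q (i + 2) + Mc (q + 1) (q - i)))

def fullOK (p : ℕ) : Bool := Nat.ble (4 * S) (Mc p p)

end Pool.Agent.SQF
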