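import Mathlib
import Pool.Agent.SQF.TDef

set_option autoImplicit false
set_option maxRecDepth 100000

namespace Pool.Agent.SQF

theorem tr0_0 : ∀ q ∈ List.range' 5 8, rowOK q = true := by decide +kernel
theorem tr0_1 : ∀ q ∈ List.range' 13 8, rowOK q = true := by decide +kernel
theorem tr0_2 : ∀ q ∈ List.range' 21 8, rowOK q = true := by decide +kernel
theorem tr0_3 : ∀ q ∈ List.range' 29 8, rowOK q = true := by decide +kernel
theorem tr0_4 : ∀ q ∈ List.range' 37 8, rowOK q = true := by decide +kernel
theorem tr0_5 : ∀ q ∈ List.range' 45 8, rowOK q = true := by decide +kernel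
theorem tr0_6 : ∀ q ∈ List.range' 53 8, rowOK q = true := by decide +kernel
theorem tr0_7 : ∀ q ∈ List.range' 61 3, rowOK q = true := by decide +kernel

end Pool.Agent.SQF
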