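import Mathlib
import Pool.Agent.SQF.TDef

set_option autoImplicit false
set_option maxRecDepth 100000

namespace Pool.Agent.SQF

theorem tr1_0 : ∀ q ∈ List.range' 64 4, rowOK q = true := by decide +kernel
theorem tr1_1 : ∀ q ∈ List.range' 68 4, rowOK q = true := by decide +kernel
theorem tr1_2 : ∀ q ∈ List.range' 72 4, rowOK q = true := by decide +kernel
theorem tr1_3 : ∀ q ∈ List.range' 76 4, rowOK q = true := by decide +kernel
theorem tr1_4 : ∀ q ∈ List.range' 80 4, rowOK q = true := by decide +kernel
theorem tr1_5 : ∀ q ∈ List.range' 84 4, rowOK q = true := by decide +kernel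
theorem tr1_6 : ∀ q ∈ List.range' 88 4, rowOK q = true := by decide +kernel

end Pool.Agent.SQF
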