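import Mathlib
import Pool.Agent.SQF.TDef

set_option autoImplicit false
set_option maxRecDepth 100000

namespace Pool.Agent.SQF

theorem tr3_0 : ∀ q ∈ List.range' 112 4, rowOK q = true := by decide +kernel
theorem tr3_1 : ∀ q ∈ List.range' 116 4, rowOK q = true := by decide +kernel
theorem tr3_2 : ∀ q ∈ List.range' 120 4, rowOK q = true := by decide +kernel
theorem tr3_3 : ∀ q ∈ List.range' 124 4, rowOK q = true := by decide +kernel

end Pool.Agent.SQF
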