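import Mathlib
import Pool.Agent.SQF.TDef

set_option autoImplicit false
set_option maxRecDepth 100000

namespace Pool.Agent.SQF

theorem full_chk : ∀ p ∈ List.range' 6 123, fullOK p = true := by decide +kernel

theorem c55 : 2 * S ≤ Mc 5 5 := by decide +kernel

theorem c44 : S ≤ Mc 4 4 := by decide +kernel

theorem wl_sum : wl.sum = 158992 := by decide +kernel

theorem wl_length : wl.length = 127 := by decide +kernel

end Pool.Agent.SQF
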