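import Mathlib
import Pool.Agent.SQF.TC0
import Pool.Agent.SQF.TC1
import Pool.Agent.SQF.TC2
import Pool.Agent.SQF.TC3
import Pool.Agent.SQF.TC4

/-!
THE TABLE. (All finite checks are in TC0 - TC4, already proved: tr0_0, tr0_1, ...: rowOK q for q in List.range' a l (together
5 ≤ q ≤ 127), full_chk, c55, c44, wl_sum, wl_length.)

(1) Mc_eq: Mc p K is the sum over the heights lo ≤ y < hi, y < 127 of wt y * wid y p K: general lemma by induction on the list:
    msum p K l y = Σ_{i < l.length} l.getD i 0 * wid (y+i) p K; then l = (wl.drop lo).take (hi - lo), wl.length = 127.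
(2) Mt_mono: for K ≤ K': lo p K' ≤ lo p K (f3, f4 monotone, truncated subtraction), hi p K ≤ hi p K' (f3, f1 monotone) and
    wid y p K ≤ wid y p K': termwise.
(3) row: from rowOK q with i = b - 1.
(4) table_ineq: let m = mh. If a = q: mh (q+1) q = Mt (q+1) (q+1) / (4 S) ≥ 1 (full_chk, 6 ≤ q+1 ≤ 128). If b = q-1, q ≥ 6:
    mh q (q-1) = Mt q q / (4 S) ≥ 1. If b = 4, q = 5: mh 5 4 = Mt 5 5 / (2 S) ≥ 1 (c55). Otherwise a ≤ q-1, b ≤ q-2, so b ≥ 1,
    mh q b = Mt q (b+1) / (2S), mh (q+1) a = Mt (q+1) (a+1) / (2S) ≥ Mt (q+1) (q-b+1) / (2S), and row q b.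
-/

set_option autoImplicit false

namespace Pool.Agent.SQF

theorem f1_mono {x y : ℕ} (h : x ≤ y) : f1 x ≤ f1 y := by
  unfold f1
  exact Nat.div_le_div_right (by omega)

theorem f3_mono {x y : ℕ} (h : x ≤ y) : f3 x ≤ f3 y := by
  unfold f3
  exact Nat.div_le_div_right (by omega)

theorem f4_mono {x y : ℕ} (h : x ≤ y) : f4 x ≤ f4 y := by
  unfold f4
  exact Nat.div_le_div_right (by omega)

private theorem t1_msum (p K : ℕ) (l : List ℕ) (y : ℕ) :
    msum p K l y = ∑ i ∈ Finset.range l.length, l.getD i 0 * wid (y + i) p K := by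
  induction l generalizing y with
  | nil => simp [msum]
  | cons w l ih =>
    rw [msum, ih, List.length_cons, Finset.sum_range_succ']
    simp only [List.getD_cons_succ, List.getD_cons_zero, add_zero]
    rw [add_comm]
    congr 1
    refine Finset.sum_congr rfl fun i _ => ?_
    rw [show y + 1 + i = y + (i + 1) by omega]

private theorem t1_sum (l : List ℕ) : l.sum = ∑ i ∈ Finset.range l.length, l.getD i 0 := by
  induction l with
  | nil => simp
  | cons w l ih =>
    rw [List.sum_cons, ih, List.length_cons, Finset.sum_range_succ']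
    simp only [List.getD_cons_succ, List.getD_cons_zero]
    rw [add_comm]

private theorem t1_row (q : ℕ) (h5 : 5 ≤ q) (h127 : q ≤ 127) : rowOK q = true := by
  rcases Nat.lt_or_ge q 13 with h | h
  · exact tr0_0 q (by rw [List.mem_range'_1]; omega)
  clear h5
  rename' h => h5
  rcases Nat.lt_or_ge q 21 with h | h
  · exact tr0_1 q (by rw [List.mem_range'_1]; omega)
  clear h5
  rename' h => h5
  rcases Nat.lt_or_ge q 29 with h | h
  · exact tr0_2 q (by rw [List.mem_range'_1]; omega)
  clear h5
  rename' h => h5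
  rcases Nat.lt_or_ge q 37 with h | h
  · exact tr0_3 q (by rw [List.mem_range'_1]; omega)
  clear h5
  rename' h => h5
  rcases Nat.lt_or_ge q 45 with h | h
  · exact tr0_4 q (by rw [List.mem_range'_1]; omega)
  clear h5
  rename' h => h5
  rcases Nat.lt_or_ge q 53 with h | h
  · exact tr0_5 q (by rw [List.mem_range'_1]; omega)
  clear h5
  rename' h => h5
  rcases Nat.lt_or_ge q 61 with h | h
  · exact tr0_6 q (by rw [List.mem_range'_1]; omega)
  clear h5
  rename' h => h5
  rcases Nat.lt_or_ge q 64 with h | h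
  · exact tr0_7 q (by rw [List.mem_range'_1]; omega)
  clear h5
  rename' h => h5
  rcases Nat.lt_or_ge q 68 with h | h
  · exact tr1_0 q (by rw [List.mem_range'_1]; omega)
  clear h5
  rename' h => h5
  rcases Nat.lt_or_ge q 72 with h | h
  · exact tr1_1 q (by rw [List.mem_range'_1]; omega)
  clear h5
  rename' h => h5
  rcases Nat.lt_or_ge q 76 with h | h
  · exact tr1_2 q (by rw [List.mem_range'_1]; omega)
  clear h5
  rename' h => h5
  rcases Nat.lt_or_ge q 80 with h | h
  · exact tr1_3 q (by rw [List.mem_range'_1]; omega)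
  clear h5
  rename' h => h5
  rcases Nat.lt_or_ge q 84 with h | h
  · exact tr1_4 q (by rw [List.mem_range'_1]; omega)
  clear h5
  rename' h => h5
  rcases Nat.lt_or_ge q 88 with h | h
  · exact tr1_5 q (by rw [List.mem_range'_1]; omega)
  clear h5
  rename' h => h5
  rcases Nat.lt_or_ge q 92 with h | h
  · exact tr1_6 q (by rw [List.mem_range'_1]; omega)
  clear h5
  rename' h => h5
  rcases Nat.lt_or_ge q 96 with h | h
  · exact tr2_0 q (by rw [List.mem_range'_1]; omega)
  clear h5
  rename' h => h5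
  rcases Nat.lt_or_ge q 100 with h | h
  · exact tr2_1 q (by rw [List.mem_range'_1]; omega)
  clear h5
  rename' h => h5
  rcases Nat.lt_or_ge q 104 with h | h
  · exact tr2_2 q (by rw [List.mem_range'_1]; omega)
  clear h5
  rename' h => h5
  rcases Nat.lt_or_ge q 108 with h | h
  · exact tr2_3 q (by rw [List.mem_range'_1]; omega)
  clear h5
  rename' h => h5
  rcases Nat.lt_or_ge q 112 with h | h
  · exact tr2_4 q (by rw [List.mem_range'_1]; omega)
  clear h5
  rename' h => h5
  rcases Nat.lt_or_ge q 116 with h | h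
  · exact tr3_0 q (by rw [List.mem_range'_1]; omega)
  clear h5
  rename' h => h5
  rcases Nat.lt_or_ge q 120 with h | h
  · exact tr3_1 q (by rw [List.mem_range'_1]; omega)
  clear h5
  rename' h => h5
  rcases Nat.lt_or_ge q 124 with h | h
  · exact tr3_2 q (by rw [List.mem_range'_1]; omega)
  clear h5
  rename' h => h5
  exact tr3_3 q (by rw [List.mem_range'_1]; omega)

theorem Mc_eq (p K : ℕ) : Mc p K = Mt p K := by
  unfold Mc Mt
  rw [t1_msum, ← Finset.sum_filter]
  have h1 : (Finset.range 127).filter (fun y => lo p K ≤ y ∧ y < hi p K) =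
      Finset.Ico (lo p K) (min (hi p K) 127) := by
    ext y
    simp only [Finset.mem_filter, Finset.mem_range, Finset.mem_Ico, lt_min_iff]
    omega
  rw [h1, Finset.sum_Ico_eq_sum_range]
  have h2 : ((wl.drop (lo p K)).take (hi p K - lo p K)).length =
      min (hi p K) 127 - lo p K := by
    rw [List.length_take, List.length_drop, wl_length]
    omega
  rw [h2]
  refine Finset.sum_congr rfl fun i hi' => ?_
  rw [Finset.mem_range] at hi'
  have h3 : i < hi p K - lo p K := by omega
  congr 1
  unfold wt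
  rw [List.getD_eq_getElem?_getD, List.getD_eq_getElem?_getD, List.getElem?_take_of_lt h3,
    List.getElem?_drop]

theorem Mt_mono (p : ℕ) {K K' : ℕ} (h : K ≤ K') : Mt p K ≤ Mt p K' := by
  have hlo : lo p K' ≤ lo p K := by
    unfold lo
    exact max_le_max (max_le_max (f3_mono (by omega)) le_rfl) (f4_mono (by omega))
  have hhi : hi p K ≤ hi p K' := by
    unfold hi
    exact min_le_min (min_le_min (f3_mono (by omega)) (f1_mono (by omega))) le_rfl
  unfold Mt
  refine Finset.sum_le_sum fun y _ => ?_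
  by_cases h1 : lo p K ≤ y ∧ y < hi p K
  · rw [if_pos h1, if_pos ⟨hlo.trans h1.1, h1.2.trans_le hhi⟩]
    refine Nat.mul_le_mul_left _ ?_
    unfold wid
    omega
  · rw [if_neg h1]
    exact Nat.zero_le _

theorem row (q b : ℕ) (h5 : 5 ≤ q) (h127 : q ≤ 127) (hb : 1 ≤ b) (hb2 : b + 2 ≤ q) :
    2 * S ≤ Mt q (b + 1) + Mt (q + 1) (q - b + 1) := by
  have h1 := t1_row q h5 h127
  unfold rowOK at h1
  rw [List.all_eq_true] at h1
  have h2 := h1 (b - 1) (List.mem_range.2 (by omega))
  have h3 := Nat.le_of_ble_eq_true h2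
  rw [Mc_eq, Mc_eq] at h3
  have h4 : b - 1 + 2 = b + 1 := by omega
  have h5' : q - (b - 1) = q - b + 1 := by omega
  rw [h4, h5'] at h3
  exact h3

theorem full (p : ℕ) (h6 : 6 ≤ p) (h128 : p ≤ 128) : 4 * S ≤ Mt p p := by
  have h1 := full_chk p (by rw [List.mem_range'_1]; omega)
  have h2 := Nat.le_of_ble_eq_true h1
  rwa [Mc_eq] at h2

theorem m44 : S ≤ Mt 4 4 := by
  have h1 := c44
  rwa [Mc_eq] at h1

/-- sum of all weights -/
theorem wt_sum : ∑ y ∈ Finset.range 127, wt y = 158992 := by
  have h1 := t1_sum wl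
  rw [wl_length, wl_sum] at h1
  exact h1.symm

/-- the share of a run (p,k) in each of its events -/
def mh (p k : ℕ) : ℚ :=
  if k = 0 then 0
  else if k + 1 = p ∧ 6 ≤ p then (Mt p (k + 1) : ℚ) / (4 * S)
  else (Mt p (k + 1) : ℚ) / (2 * S)

theorem table_ineq (q b a : ℕ) (h5 : 5 ≤ q) (h127 : q ≤ 127) (hb : b + 1 ≤ q) (ha : a ≤ q) (hab : q ≤ a + b) :
    1 ≤ mh q b + mh (q + 1) a := by
  have hS : (0 : ℚ) < (S : ℚ) := by
    unfold S
    norm_num
  have hS4 : (0 : ℚ) < 4 * (S : ℚ) := by linarith
  have hS2 : (0 : ℚ) < 2 * (S : ℚ) := by linarith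
  have h0 : ∀ p k, 0 ≤ mh p k := by
    intro p k
    unfold mh
    split
    · exact le_rfl
    · split
      · exact div_nonneg (Nat.cast_nonneg _) hS4.le
      · exact div_nonneg (Nat.cast_nonneg _) hS2.le
  by_cases ha1 : a = q
  · have h1 : 1 ≤ mh (q + 1) a := by
      unfold mh
      rw [if_neg (by omega), if_pos ⟨by omega, by omega⟩, le_div_iff₀ hS4, one_mul]
      have h2 := full (q + 1) (by omega) (by omega)
      subst ha1
      exact_mod_cast h2
    have h2 := h0 q b
    linarith
  · by_cases hb1 : b + 1 = q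
    · have h1 : 1 ≤ mh q b := by
        unfold mh
        by_cases h6 : 6 ≤ q
        · rw [if_neg (by omega), if_pos ⟨hb1, h6⟩, le_div_iff₀ hS4, one_mul, hb1]
          have h2 := full q h6 (by omega)
          exact_mod_cast h2
        · have hq : q = 5 := by omega
          rw [if_neg (by omega), if_neg (by omega), le_div_iff₀ hS2, one_mul, hb1, hq]
          have h2 := c55
          rw [Mc_eq] at h2
          exact_mod_cast h2
      have h2 := h0 (q + 1) a
      linarith
    · have h1 := row q b h5 h127 (by omega) (by omega)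
      have h2 := Mt_mono (q + 1) (show q - b + 1 ≤ a + 1 by omega)
      have h3 : 2 * S ≤ Mt q (b + 1) + Mt (q + 1) (a + 1) := by omega
      unfold mh
      rw [if_neg (by omega), if_neg (by omega), if_neg (by omega), if_neg (by omega), ← add_div,
        le_div_iff₀ hS2, one_mul]
      exact_mod_cast h3

end Pool.Agent.SQF
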