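import Mathlib
import Pool.Agent.SQF.A3
import Pool.Agent.SQF.B2
import Pool.Agent.SQF.B3
import Pool.Agent.SQF.T1

/-!
SQUARES OF HALF-LENGTH 6 .. 128.

(1) noconf: if r.p < r'.p and both use the height y (lo ≤ y < hi), then not Conf r r'. Write K = r.k+1, K' = r'.k+1.
    p + K ≤ p': y < f1 (p+K) ≤ f1 p' ≤ y. p + K' ≤ p': y < f4 p ≤ f4 (p'-K') ≤ y. 3p+K+K' ≤ 3p': y < f3 (3p+K) ≤ f3 (3p'-K') ≤ y.
    (f1_mono, f3_mono, f4_mono from T1.)
(2) area: for a finite set R of runs: Σ_{r ∈ R} Mt r.p (r.k+1) ≤ 158992 * n. Exchange the sums: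
    Σ_y wt y Σ_{r ∈ R, lo ≤ y < hi} wid y r.p (r.k+1), and wid y r.p (r.k+1) = wd y r; drop the r with wd y r = 0 and apply height
    (A3) to the rest (y ≥ 1: for y = 0 the weight is 0, as wt 0 = 0); wt_sum.
(3) far_table: Q P := 6 ≤ P ∧ P ≤ 128, m := mh (T1). dcount gives |Z| ≤ Σ_r mh r.p r.k * cnt r (hm = table_ineq with q = P-1).
    For each run r (k ≥ 1, k < p): mh r.p r.k * cnt r ≤ (if 5 ≤ r.p then Mt r.p (r.k+1) / S else 0):
    p ≤ 4: cnt = 0 (cnt_eq_zero). p = 5: cnt ≤ 2 (cnt_le_two_of_not), mh = Mt/(2S). p ≥ 6, k+1 = p: cnt ≤ 4, mh = Mt/(4S).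
    p ≥ 6, k + 2 ≤ p: cnt ≤ 2 (cnt_le_two), mh = Mt/(2S).
    The runs with p = 4, k = 3 have Mt 4 4 ≥ S (m44), so S * N43 + S * |Z| ≤ Σ_{p=4,k=3} Mt + Σ_{p ≥ 5} Mt ≤ 158992 n.
-/

set_option autoImplicit false

namespace Pool.Agent.SQF

variable {β : Type*} {W : ℤ → β} {n : ℕ}

theorem noconf {r r' : Run} {y : ℕ} (hp : r.p < r'.p)
    (h1 : lo r.p (r.k + 1) ≤ y ∧ y < hi r.p (r.k + 1)) (h2 : lo r'.p (r'.k + 1) ≤ y ∧ y < hi r'.p (r'.k + 1)) :
    ¬ Conf r r' := by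
  intro hC
  obtain ⟨-, h1b⟩ := h1
  obtain ⟨h2a, -⟩ := h2
  unfold hi at h1b
  unfold lo at h2a
  have a1 : y < f3 (3 * r.p + (r.k + 1)) :=
    lt_of_lt_of_le h1b ((min_le_left _ _).trans (min_le_left _ _))
  have a2 : y < f1 (r.p + (r.k + 1)) :=
    lt_of_lt_of_le h1b ((min_le_left _ _).trans (min_le_right _ _))
  have a3 : y < f4 r.p := lt_of_lt_of_le h1b (min_le_right _ _)
  have b1 : f3 (3 * r'.p - (r'.k + 1)) ≤ y :=
    ((le_max_left _ _).trans (le_max_left _ _)).trans h2a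
  have b2 : f1 r'.p ≤ y := ((le_max_right _ _).trans (le_max_left _ _)).trans h2a
  have b3 : f4 (r'.p - (r'.k + 1)) ≤ y := (le_max_right _ _).trans h2a
  rcases hC with h | h | h
  · exact absurd (a2.trans_le ((f1_mono h).trans b2)) (lt_irrefl _)
  · have : r.p ≤ r'.p - (r'.k + 1) := by omega
    exact absurd (a3.trans_le ((f4_mono this).trans b3)) (lt_irrefl _)
  · have : 3 * r.p + (r.k + 1) ≤ 3 * r'.p - (r'.k + 1) := by omega
    exact absurd (a1.trans_le ((f3_mono this).trans b1)) (lt_irrefl _)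

theorem area (hW : Sqf W) (hF : Fresh W n) (R : Finset Run) (hR : ∀ r ∈ R, IsRun W r) :
    ∑ r ∈ R, Mt r.p (r.k + 1) ≤ 158992 * n := by
  unfold Mt
  rw [Finset.sum_comm, ← wt_sum, Finset.sum_mul]
  refine Finset.sum_le_sum (fun y _ => ?_)
  rcases Nat.eq_zero_or_pos y with h0 | hy
  · subst h0
    have hw : wt 0 = 0 := rfl
    simp [hw]
  · have e : ∑ r ∈ R, (if lo r.p (r.k + 1) ≤ y ∧ y < hi r.p (r.k + 1) then
        wt y * wid y r.p (r.k + 1) else 0) =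
        wt y * ∑ r ∈ R.filter (fun r => (lo r.p (r.k + 1) ≤ y ∧ y < hi r.p (r.k + 1)) ∧ 1 ≤ wd y r),
          wd y r := by
      rw [Finset.mul_sum, Finset.sum_filter]
      refine Finset.sum_congr rfl (fun r _ => ?_)
      have hwd : wid y r.p (r.k + 1) = wd y r := rfl
      rw [hwd]
      by_cases h : lo r.p (r.k + 1) ≤ y ∧ y < hi r.p (r.k + 1)
      · rw [if_pos h]
        by_cases h1 : 1 ≤ wd y r
        · rw [if_pos ⟨h, h1⟩]
        · rw [if_neg (fun hh => h1 hh.2)]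
          have : wd y r = 0 := by omega
          rw [this, mul_zero]
      · rw [if_neg h, if_neg (fun hh => h hh.1)]
    rw [e]
    refine Nat.mul_le_mul_left _ ?_
    refine height hW hF y hy _ ?_ ?_ ?_
    · intro r hr
      exact hR r (Finset.mem_filter.mp hr).1
    · intro r hr
      exact (Finset.mem_filter.mp hr).2.2
    · intro r hr r' hr' hlt
      exact noconf hlt (Finset.mem_filter.mp hr).2.1 (Finset.mem_filter.mp hr').2.1

theorem c1_ar (M c s d : ℚ) (hM : 0 ≤ M) (hs : 0 < s) (hd : 0 < d) (hc : c ≤ d) :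
    M / (d * s) * c ≤ M / s := by
  calc M / (d * s) * c ≤ M / (d * s) * d := mul_le_mul_of_nonneg_left hc (by positivity)
    _ = M / s := by field_simp

theorem c1_nonneg (M s d : ℚ) (hM : 0 ≤ M) (hs : 0 < s) (hd : 0 < d) : 0 ≤ M / (d * s) := by
  positivity

theorem c1_S : (0 : ℚ) < (S : ℚ) := by
  have : 0 < S := by decide
  exact_mod_cast this

theorem c1_bound (hW : Sqf W) (Z : Finset (ℤ × β)) (hN : ∀ z ∈ Z, ¬ Near W z) {r : Run}
    (h : IsRun W r) :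
    mh r.p r.k * (cnt W (fun P => 6 ≤ P ∧ P ≤ 128) Z r : ℚ) ≤
      if 5 ≤ r.p then (Mt r.p (r.k + 1) : ℚ) / S else 0 := by
  have hlt := IsRun.k_lt hW h
  have hk := h.2.1
  have hk0 : r.k ≠ 0 := by omega
  have hS : (0 : ℚ) < (S : ℚ) := c1_S
  by_cases h5 : 5 ≤ r.p
  · rw [if_pos h5]
    have hM : (0 : ℚ) ≤ (Mt r.p (r.k + 1) : ℚ) := Nat.cast_nonneg _
    by_cases hfull : r.k + 1 = r.p ∧ 6 ≤ r.p
    · have e : mh r.p r.k = (Mt r.p (r.k + 1) : ℚ) / (4 * S) := by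
        unfold mh
        rw [if_neg hk0, if_pos hfull]
      have hc : (cnt W (fun P => 6 ≤ P ∧ P ≤ 128) Z r : ℚ) ≤ 4 := by
        exact_mod_cast cnt_le_four (fun P => 6 ≤ P ∧ P ≤ 128) Z r
      rw [e]
      exact c1_ar _ _ _ 4 hM hS (by norm_num) hc
    · have e : mh r.p r.k = (Mt r.p (r.k + 1) : ℚ) / (2 * S) := by
        unfold mh
        rw [if_neg hk0, if_neg hfull]
      have hc : (cnt W (fun P => 6 ≤ P ∧ P ≤ 128) Z r : ℚ) ≤ 2 := by
        by_cases hp : r.p = 5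
        · exact_mod_cast cnt_le_two_of_not (fun P => 6 ≤ P ∧ P ≤ 128) Z r (by
            intro hq
            have := hq.1
            omega)
        · exact_mod_cast cnt_le_two hW h (by omega) (fun P => 6 ≤ P ∧ P ≤ 128) Z hN
      rw [e]
      exact c1_ar _ _ _ 2 hM hS (by norm_num) hc
  · rw [if_neg h5]
    have hc : cnt W (fun P => 6 ≤ P ∧ P ≤ 128) Z r = 0 := by
      refine cnt_eq_zero _ Z r ?_ ?_
      · intro hq
        have := hq.1
        omega
      · intro hq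
        have := hq.1
        omega
    rw [hc]
    simp

theorem far_table (hW : Sqf W) (hF : Fresh W n) (Z : Finset (ℤ × β))
    (hZ : ∀ z ∈ Z, NonTriv W z ∧ ¬ Near W z ∧ ∃ P : ℕ, 6 ≤ P ∧ P ≤ 128 ∧ Ev W z.1 z.2 P) :
    S * (N43 W n + Z.card) ≤ 158992 * n := by
  have hS : (0 : ℚ) < (S : ℚ) := c1_S
  have hd := dcount hW hF Z (fun P => 6 ≤ P ∧ P ≤ 128) mh ?_ ?_ ?_ ?_
  · have hd2 : (Z.card : ℚ) ≤ ∑ r ∈ Runs W n, if 5 ≤ r.p then (Mt r.p (r.k + 1) : ℚ) / S else 0 := by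
      refine hd.trans (Finset.sum_le_sum (fun r hr => ?_))
      exact c1_bound hW Z (fun z hz => (hZ z hz).2.1) ((mem_Runs hF r).1 hr)
    have hd3 : (S * Z.card : ℕ) ≤ ∑ r ∈ (Runs W n).filter (fun r => 5 ≤ r.p), Mt r.p (r.k + 1) := by
      have h3 : (S : ℚ) * Z.card ≤ ∑ r ∈ (Runs W n).filter (fun r => 5 ≤ r.p), (Mt r.p (r.k + 1) : ℚ) := by
        rw [← Finset.sum_filter] at hd2
        rw [← Finset.sum_div, le_div_iff₀ hS] at hd2
        rw [mul_comm]
        exact hd2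
      exact_mod_cast h3
    have hN : S * N43 W n ≤ ∑ r ∈ (Runs W n).filter (fun r => r.p = 4 ∧ r.k = 3), Mt r.p (r.k + 1) := by
      unfold N43
      rw [mul_comm, ← smul_eq_mul]
      refine Finset.card_nsmul_le_sum _ _ _ (fun r hr => ?_)
      obtain ⟨-, h4, h3⟩ := Finset.mem_filter.mp hr
      rw [h4, h3]
      exact m44
    have hdis : Disjoint ((Runs W n).filter (fun r => r.p = 4 ∧ r.k = 3))
        ((Runs W n).filter (fun r => 5 ≤ r.p)) := by
      rw [Finset.disjoint_filter]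
      rintro r - ⟨h4, -⟩ h5
      omega
    have hsum : ∑ r ∈ (Runs W n).filter (fun r => r.p = 4 ∧ r.k = 3), Mt r.p (r.k + 1) +
        ∑ r ∈ (Runs W n).filter (fun r => 5 ≤ r.p), Mt r.p (r.k + 1) ≤ 158992 * n := by
      rw [← Finset.sum_union hdis]
      refine area hW hF _ (fun r hr => ?_)
      rcases Finset.mem_union.mp hr with h | h
      · exact (mem_Runs hF r).1 (Finset.mem_filter.mp h).1
      · exact (mem_Runs hF r).1 (Finset.mem_filter.mp h).1
    rw [mul_add]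
    omega
  · intro p k
    unfold mh
    split_ifs
    · exact le_refl _
    · exact c1_nonneg _ _ 4 (Nat.cast_nonneg _) hS (by norm_num)
    · exact c1_nonneg _ _ 2 (Nat.cast_nonneg _) hS (by norm_num)
  · intro p
    unfold mh
    rw [if_pos rfl]
  · intro z hz
    obtain ⟨h1, -, P, h6, h128, hE⟩ := hZ z hz
    exact ⟨h1, P, h6, ⟨h6, h128⟩, hE⟩
  · intro P b a h6 hQ hb ha hab
    obtain ⟨q, rfl⟩ : ∃ q, P = q + 1 := ⟨P - 1, by omega⟩
    have := table_ineq q b a (by omega) (by have := hQ.2; omega) (by omega) (by omega) (by omega)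
    simpa using this

end Pool.Agent.SQF
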