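import Mathlib
import Pool.Agent.SQF.A3

/-!
LONG RUNS WITH LARGE PERIODS. e r := 4 if k + 1 = p, else 2.

(1) group: a ≥ 12, b = 7a/5 (floor). Σ over the runs with a ≤ p < b, p ≤ 2k of e r is at most 5n/a.
    Height y = 11a/10 (floor). For r, r' in the group, D = p'-p ≥ 1: K = k+1 ≥ p/2+1. No conflict: D ≤ b-1-a ≤ 2a/5-1 < a/2 < K, K';
    3D < K+K': K+K' ≥ (p+p')/2 + 2 ≥ a + D/2 + 2 and 5D/2 ≤ a. (With naturals: 2K ≥ p+2, 2K' ≥ p'+2, 5b ≤ 7a: omega.)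
    5 * wd y r ≥ 2a: y ≥ p: wd = k+1-y+... = K - (p-y) for p ≥ y, K - (y-p) for p ≤ y.
      p ≥ y: 2wd ≥ p+2-2p+2y = 2y+2-p ≥ (22a/10 - 2) + 2 - 7a/5 = 4a/5.   p ≤ y: 2wd ≥ 3p+2-2y ≥ 3a+2-22a/10 ≥ 4a/5.
    5 * wd y r ≥ 4a if k+1 = p: p ≥ y: wd = y ≥ 11a/10 - 1 + 1/10 ≥ 4a/5 (a ≥ 12: 11a/10 - 9/10 ≥ 4a/5 iff 3a/10 ≥ 9/10). p ≤ y:
      wd = 2p - y ≥ 9a/10.
    So e r ≤ (5/a) wd y r in all cases, and height (A3, y ≥ 1) gives Σ ≤ 5n/a.
(2) tail_sum: Σ over p ≥ a of e r is at most 20 n/a, for all a ≥ 12. Strong induction on n + 1 - a (if a > n there are no runs with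
    p ≥ a: 0): Σ_{p ≥ a} = Σ_{a ≤ p < b} + Σ_{p ≥ b} ≤ 5n/a + 20n/b with b = 7a/5 (floor) > a, b ≥ 12, and
    20/b ≤ 15/a iff 4a ≤ 3b: 3*(7a/5 - 4/5) ≥ 4a iff a ≥ 12.
-/

set_option autoImplicit false

namespace Pool.Agent.SQF

variable {β : Type*} {W : ℤ → β} {n : ℕ}

/-- maximal number of roles -/
def eR (r : Run) : ℚ := if r.k + 1 = r.p then 4 else 2

theorem group (hW : Sqf W) (hF : Fresh W n) (a : ℕ) (ha : 12 ≤ a) :
    ∑ r ∈ (Runs W n).filter (fun r => a ≤ r.p ∧ r.p < 7 * a / 5 ∧ r.p ≤ 2 * r.k), eR r ≤ 5 * (n : ℚ) / a := by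
  classical
  set R := (Runs W n).filter (fun r => a ≤ r.p ∧ r.p < 7 * a / 5 ∧ r.p ≤ 2 * r.k) with hR
  have hmem : ∀ r ∈ R, IsRun W r ∧ a ≤ r.p ∧ r.p < 7 * a / 5 ∧ r.p ≤ 2 * r.k := by
    intro r hr
    rw [hR, Finset.mem_filter] at hr
    exact ⟨(mem_Runs hF r).1 hr.1, hr.2⟩
  have hw1 : ∀ r ∈ R, 2 * a ≤ 5 * wd (11 * a / 10) r := by
    intro r hr
    obtain ⟨h1, h2, h3, h4⟩ := hmem r hr
    unfold wd
    omega
  have hw2 : ∀ r ∈ R, r.k + 1 = r.p → 4 * a ≤ 5 * wd (11 * a / 10) r := by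
    intro r hr hk
    obtain ⟨h1, h2, h3, h4⟩ := hmem r hr
    unfold wd
    omega
  have hh := height hW hF (11 * a / 10) (by omega) R (fun r hr => (hmem r hr).1)
    (fun r hr => by have := hw1 r hr; omega) (fun r hr r' hr' hp => by
      obtain ⟨h1, h2, h3, h4⟩ := hmem r hr
      obtain ⟨h1', h2', h3', h4'⟩ := hmem r' hr'
      unfold Conf
      omega)
  have ha0 : (0 : ℚ) < a := by
    have : 0 < a := by omega
    exact_mod_cast this
  have he : ∀ r ∈ R, eR r ≤ 5 / a * (wd (11 * a / 10) r : ℚ) := by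
    intro r hr
    rw [div_mul_eq_mul_div, le_div_iff₀ ha0]
    unfold eR
    split_ifs with hk
    · exact_mod_cast hw2 r hr hk
    · exact_mod_cast hw1 r hr
  calc ∑ r ∈ R, eR r ≤ ∑ r ∈ R, 5 / (a : ℚ) * (wd (11 * a / 10) r : ℚ) := Finset.sum_le_sum he
    _ = 5 / (a : ℚ) * ((∑ r ∈ R, wd (11 * a / 10) r : ℕ) : ℚ) := by
        rw [← Finset.mul_sum]
        push_cast
        rfl
    _ ≤ 5 / (a : ℚ) * (n : ℚ) := by
        have : ((∑ r ∈ R, wd (11 * a / 10) r : ℕ) : ℚ) ≤ n := by exact_mod_cast hh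
        gcongr
    _ = _ := by ring

private theorem tail_empty (hF : Fresh W n) (a : ℕ) (ha : n < a) :
    (Runs W n).filter (fun r => a ≤ r.p ∧ r.p ≤ 2 * r.k) = ∅ := by
  rw [Finset.filter_eq_empty_iff]
  intro r hr h
  have h1 := ((mem_Runs hF r).1 hr).bound hF
  omega

private theorem tail_aux (hW : Sqf W) (hF : Fresh W n) (m : ℕ) : ∀ a : ℕ, 12 ≤ a → n + 1 - a ≤ m →
    ∑ r ∈ (Runs W n).filter (fun r => a ≤ r.p ∧ r.p ≤ 2 * r.k), eR r ≤ 20 * (n : ℚ) / a := by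
  classical
  induction m with
  | zero =>
    intro a ha hm
    rw [tail_empty hF a (by omega), Finset.sum_empty]
    positivity
  | succ m ih =>
    intro a ha hm
    by_cases hna : n < a
    · rw [tail_empty hF a hna, Finset.sum_empty]
      positivity
    have hb := ih (7 * a / 5) (by omega) (by omega)
    have hg := group hW hF a ha
    have hsplit : ∑ r ∈ (Runs W n).filter (fun r => a ≤ r.p ∧ r.p ≤ 2 * r.k), eR r =
        ∑ r ∈ (Runs W n).filter (fun r => a ≤ r.p ∧ r.p < 7 * a / 5 ∧ r.p ≤ 2 * r.k), eR r +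
        ∑ r ∈ (Runs W n).filter (fun r => 7 * a / 5 ≤ r.p ∧ r.p ≤ 2 * r.k), eR r := by
      rw [← Finset.sum_union]
      · refine Finset.sum_congr ?_ fun _ _ => rfl
        ext r
        simp only [Finset.mem_filter, Finset.mem_union]
        constructor
        · rintro ⟨h1, h2, h3⟩
          by_cases h4 : r.p < 7 * a / 5
          · exact Or.inl ⟨h1, h2, h4, h3⟩
          · exact Or.inr ⟨h1, by omega, h3⟩
        · rintro (⟨h1, h2, h3, h4⟩ | ⟨h1, h2, h3⟩)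
          · exact ⟨h1, h2, h4⟩
          · exact ⟨h1, by omega, h3⟩
      · rw [Finset.disjoint_left]
        intro r h1 h2
        rw [Finset.mem_filter] at h1 h2
        omega
    rw [hsplit]
    have ha0 : (0 : ℚ) < a := by
      have : 0 < a := by omega
      exact_mod_cast this
    have hb0 : (0 : ℚ) < (7 * a / 5 : ℕ) := by
      have : 0 < 7 * a / 5 := by omega
      exact_mod_cast this
    have h1 : 20 * (n : ℚ) / (7 * a / 5 : ℕ) ≤ 15 * (n : ℚ) / a := by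
      rw [div_le_div_iff₀ hb0 ha0]
      have h2 : 4 * (a : ℚ) ≤ 3 * (7 * a / 5 : ℕ) := by
        have : 4 * a ≤ 3 * (7 * a / 5) := by omega
        exact_mod_cast this
      have h3 : (0 : ℚ) ≤ n := Nat.cast_nonneg _
      nlinarith
    have h2 : 20 * (n : ℚ) / a = 5 * (n : ℚ) / a + 15 * (n : ℚ) / a := by ring
    rw [h2]
    exact add_le_add hg (hb.trans h1)

theorem tail_sum (hW : Sqf W) (hF : Fresh W n) (a : ℕ) (ha : 12 ≤ a) :
    ∑ r ∈ (Runs W n).filter (fun r => a ≤ r.p ∧ r.p ≤ 2 * r.k), eR r ≤ 20 * (n : ℚ) / a :=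
  tail_aux hW hF _ a ha le_rfl

end Pool.Agent.SQF
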