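import Mathlib
import Pool.Agent.SQF.B2
import Pool.Agent.SQF.B3
import Pool.Agent.SQF.C2

/-!
SQUARES OF HALF-LENGTH ≥ 129. Q P := 129 ≤ P, m p k := if 128 ≤ p ∧ 1 ≤ k ∧ p ≤ 2 * k then 1 else 0.
hm: P ≥ 129, P ≤ a+b+1: if P ≤ 2a then m P a = 1; otherwise 2a ≤ P-1, 2b ≥ 2P-2-2a ≥ P-1, m (P-1) b = 1 (b ≥ 1 as P-1 ≥ 128).
dcount (B3): |Z| ≤ Σ_{r ∈ Runs, 128 ≤ p ≤ 2k} cnt r ≤ Σ eR r (cnt_le_two for k + 2 ≤ p, cnt_le_four for k+1 = p) ≤ 20n/128.
-/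

set_option autoImplicit false

namespace Pool.Agent.SQF

variable {β : Type*} {W : ℤ → β} {n : ℕ}

theorem far_tail (hW : Sqf W) (hF : Fresh W n) (Z : Finset (ℤ × β))
    (hZ : ∀ z ∈ Z, NonTriv W z ∧ ¬ Near W z ∧ ∃ P : ℕ, 129 ≤ P ∧ Ev W z.1 z.2 P) :
    32 * Z.card ≤ 5 * n := by
  classical
  obtain ⟨m, hmd⟩ : ∃ m : ℕ → ℕ → ℚ, ∀ p k, m p k = if 128 ≤ p ∧ 1 ≤ k ∧ p ≤ 2 * k then 1 else 0 :=
    ⟨_, fun _ _ => rfl⟩
  have hm0 : ∀ p k, 0 ≤ m p k := by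
    intro p k
    rw [hmd]
    split_ifs <;> norm_num
  have h1 := dcount hW hF Z (fun P => 129 ≤ P) m hm0 (fun p => by
    rw [hmd, if_neg]
    rintro ⟨-, h, -⟩
    omega) (fun z hz => by
      obtain ⟨h1, -, P, h3, h4⟩ := hZ z hz
      exact ⟨h1, P, by omega, h3, h4⟩) (fun P b a h6 hQ hb ha hab => by
      have hQ' : 129 ≤ P := hQ
      by_cases h : P ≤ 2 * a
      · have h2 : m P a = 1 := by
          rw [hmd, if_pos]
          exact ⟨by omega, by omega, h⟩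
        have h3 := hm0 (P - 1) b
        linarith
      · have h2 : m (P - 1) b = 1 := by
          rw [hmd, if_pos]
          exact ⟨by omega, by omega, by omega⟩
        have h3 := hm0 P a
        linarith)
  have h2 : ∑ r ∈ Runs W n, m r.p r.k * (cnt W (fun P => 129 ≤ P) Z r : ℚ) ≤
      ∑ r ∈ (Runs W n).filter (fun r => 128 ≤ r.p ∧ r.p ≤ 2 * r.k), eR r := by
    rw [Finset.sum_filter]
    refine Finset.sum_le_sum fun r hr => ?_
    have hrun := (mem_Runs hF r).1 hr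
    have hk := hrun.k_lt hW
    by_cases hc : 128 ≤ r.p ∧ r.p ≤ 2 * r.k
    · rw [if_pos hc, hmd, if_pos ⟨hc.1, by omega, hc.2⟩, one_mul]
      unfold eR
      split_ifs with h
      · exact_mod_cast cnt_le_four _ Z r
      · exact_mod_cast cnt_le_two hW hrun (by omega) _ Z fun z hz => (hZ z hz).2.1
    · rw [if_neg hc, hmd, if_neg, zero_mul]
      rintro ⟨h3, -, h4⟩
      exact hc ⟨h3, h4⟩
  have h3 := tail_sum hW hF 128 (by norm_num)
  have h4 : (Z.card : ℚ) ≤ 20 * n / 128 := by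
    have := h1.trans (h2.trans h3)
    exact_mod_cast this
  have h5 : (32 * Z.card : ℚ) ≤ 5 * n := by linarith
  exact_mod_cast h5

end Pool.Agent.SQF
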