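import Mathlib
import Pool.Agent.SQF.Def

/-!
LISTS. Wd w i = inl (w_i) for 0 ≤ i < length, inr i otherwise (all these are different letters).

(1) Wd_fresh: clear.
(2) Wd_sqf: a square of half-length p ≥ 1 at s in Wd w: W (s+i) = W (s+i+p) for all i < p. All positions s..s+2p-1 are in [0,n)
    (the letters of both halves occur twice). Then w = take s ++ u ++ u ++ drop (s+2p), u = (w.drop s).take p, u ≠ [].
(3) ins_ev: w = p ++ s, g = p.length, p ++ a :: s = x ++ u ++ u ++ y, u ≠ [], a nontrivial at g. Put P = u.length, o = x.length,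
    v = p ++ a :: s. v_i = w_i for i < g, v_g = a, v_i = w_(i-1) for i > g. v_(o+i) = v_(o+P+i) for i < P.
    If g < o: w contains the square u u at o-1; if g ≥ o+2P: at o: both impossible (w is square-free: as in (2), or directly
    w = x' ++ u ++ u ++ y with x' = x.erase.. : easier with Sqf (Wd w) at s = o-1 or s = o).
    If o ≤ g < o+P: b = g-o < P; L-case: W (g-1-t) = v_(g-1-t) = v_(g-1-t+P) = W (g-1-t+P-1) for t < b; a = v_g = v_(g+P) = W (g+P-1);
    W (g+t) = v_(g+1+t) = v_(g+1+t+P) = W (g+t+P) for t + b + 1 < P. LEv needs b+2 ≤ P: if b = P-1 then a = v_(g+P), and the letters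
    v_(g-1-t) = W ..: shift P-1 matches at g-1-t for t < P-1: if P ≥ 2 this is a square of half-length P-1 in W at g-(P-1);
    if P = 1: a = v_(g+1) = W g: a trivial.
    If o+P ≤ g < o+2P: b = g-o-P: W (g-1-t) = v_(g-1-t) = v_(g-1-t-P) = W (g-1-t-P), t < b; a = v_g = v_(g-P) = W (g-P);
    W (g+t) = v_(g+1+t) = v_(g+1+t-P) = W (g+t-(P-1)) for t + b + 1 < P [for v_(g+1+t-P): the position is < g as t+1 < P+..., check:
    g+1+t-P ≤ g-1 iff t+2 ≤ P, true because t + b + 1 < P and, for b ≥ 1, t+2 ≤ P; b = 0: see below].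
    REv needs 1 ≤ b: if b = 0, then g = o+P, and for t + 1 < P: v_(g+1+t) = v_(g+1+t-P), i.e. W (g+t) = W (g+t-(P-1)) for
    t < P-1: for P ≥ 2 a square of half-length P-1 at g-(P-1); for P = 1: a = v_(g-1) = W (g-1): trivial.
-/

set_option autoImplicit false

namespace Pool.Agent.SQF

variable {A : Type*}

/-- the bi-infinite word of a list -/
def Wd (w : List A) (i : ℤ) : A ⊕ ℤ :=
  if h : 0 ≤ i ∧ i.toNat < w.length then Sum.inl (w.get ⟨i.toNat, h.2⟩) else Sum.inr i

theorem Wd_some (w : List A) (n : ℕ) (c : A) (h : w[n]? = some c) : Wd w (n : ℤ) = Sum.inl c := by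
  obtain ⟨h1, h2⟩ := List.getElem?_eq_some_iff.1 h
  unfold Wd
  have h3 : (0 : ℤ) ≤ (n : ℤ) ∧ (n : ℤ).toNat < w.length := ⟨by omega, by simpa using h1⟩
  rw [dif_pos h3]
  simp only [List.get_eq_getElem, Int.toNat_natCast, h2]

theorem Wd_out (w : List A) (i : ℤ) (h : i < 0 ∨ (w.length : ℤ) ≤ i) : Wd w i = Sum.inr i := by
  unfold Wd
  rw [dif_neg]
  rintro ⟨h1, h2⟩
  omega

theorem Wd_fresh (w : List A) : Fresh (Wd w) w.length := by
  intro i hi j hij h
  rw [Wd_out w i hi] at h
  unfold Wd at h
  split_ifs at h with h1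
  exact hij (Sum.inr.inj h)

theorem sq_of_get (v : List A) (o P : ℕ) (hP : 0 < P) (ho : o + 2 * P ≤ v.length)
    (h : ∀ i : ℕ, i < P → v[o + i]? = v[o + i + P]?) :
    ∃ x u y : List A, u ≠ [] ∧ v = x ++ u ++ u ++ y := by
  refine ⟨v.take o, (v.drop o).take P, v.drop (o + 2 * P), ?_, ?_⟩
  · intro h0
    have := congrArg List.length h0
    simp only [List.length_take, List.length_drop, List.length_nil] at this
    omega
  · have e1 : (v.drop o).take P = (v.drop (o + P)).take P := by
      apply List.ext_getElem?
      intro i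
      by_cases hi : i < P
      · rw [List.getElem?_take_of_lt hi, List.getElem?_take_of_lt hi, List.getElem?_drop,
          List.getElem?_drop, h i hi]
        congr 1
        omega
      · rw [List.getElem?_eq_none (by simp only [List.length_take]; omega),
          List.getElem?_eq_none (by simp only [List.length_take]; omega)]
    calc v = v.take o ++ v.drop o := (List.take_append_drop o v).symm
      _ = v.take o ++ ((v.drop o).take P ++ (v.drop o).drop P) := by
        rw [List.take_append_drop P (v.drop o)]
      _ = v.take o ++ ((v.drop o).take P ++ (((v.drop o).drop P).take P ++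
          ((v.drop o).drop P).drop P)) := by
        rw [List.take_append_drop P ((v.drop o).drop P)]
      _ = v.take o ++ (v.drop o).take P ++ (v.drop o).take P ++ v.drop (o + 2 * P) := by
        rw [List.drop_drop, List.drop_drop, ← e1]
        have e2 : o + P + P = o + 2 * P := by ring
        rw [e2]
        simp only [List.append_assoc]

theorem Wd_sqf (w : List A) (hw : ∀ x u y : List A, u ≠ [] → w ≠ x ++ u ++ u ++ y) : Sqf (Wd w) := by
  intro s p hp
  by_contra hcon
  push Not at hcon
  have hin : ∀ i : ℕ, i < p → (0 ≤ s + i ∧ s + i + p < w.length) := by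
    intro i hi
    have h1 := hcon i hi
    constructor
    · by_contra h2
      exact Wd_fresh w (s + i) (Or.inl (by omega)) (s + i + p) (by omega) h1.symm
    · by_contra h2
      exact Wd_fresh w (s + i + p) (Or.inr (by omega)) (s + i) (by omega) h1
  have h0 := hin 0 hp
  have h1 := hin (p - 1) (by omega)
  obtain ⟨o, rfl⟩ := Int.eq_ofNat_of_zero_le (show 0 ≤ s by simpa using h0.1)
  have hlen : o + 2 * p ≤ w.length := by
    have := h1.2
    push_cast [Nat.cast_sub hp] at this
    omega
  obtain ⟨x, u, y, hu, he⟩ := sq_of_get w o p hp hlen (by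
    intro i hi
    have h2 := hcon i hi
    have e1 : w[o + i]? = some (w[o + i]'(by omega)) := List.getElem?_eq_getElem (by omega)
    have e2 : w[o + i + p]? = some (w[o + i + p]'(by omega)) := List.getElem?_eq_getElem (by omega)
    have e3 := Wd_some w _ _ e1
    have e4 := Wd_some w _ _ e2
    push_cast at e3 e4
    rw [e3, e4] at h2
    rw [e1, e2, Sum.inl.inj h2])
  exact hw x u y hu he

/-- the word with the letter `x` inserted at the gap `g` -/
def Vz {β : Type*} (W : ℤ → β) (g : ℤ) (x : β) (i : ℤ) : β :=
  if i < g then W i else if i = g then x else W (i - 1)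

theorem Vz_lt {β : Type*} (W : ℤ → β) (g : ℤ) (x : β) (i : ℤ) (h : i < g) : Vz W g x i = W i :=
  if_pos h

theorem Vz_eq {β : Type*} (W : ℤ → β) (g : ℤ) (x : β) (i : ℤ) (h : i = g) : Vz W g x i = x := by
  unfold Vz
  rw [if_neg (by omega), if_pos h]

theorem Vz_gt {β : Type*} (W : ℤ → β) (g : ℤ) (x : β) (i : ℤ) (h : g < i) :
    Vz W g x i = W (i - 1) := by
  unfold Vz
  rw [if_neg (by omega), if_neg (by omega)]

theorem z_ev {β : Type*} (W : ℤ → β) (hW : Sqf W) (g : ℤ) (x : β) (hnt : NonTriv W (g, x))
    (o : ℤ) (P : ℕ) (hP : 0 < P)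
    (h : ∀ t : ℕ, t < P → Vz W g x (o + t) = Vz W g x (o + t + P)) : ∃ P : ℕ, Ev W g x P := by
  have hint : ∀ i : ℤ, o ≤ i → i < o + P → Vz W g x i = Vz W g x (i + P) := by
    intro i h1 h2
    have h3 := h (i - o).toNat (by omega)
    have e : o + ((i - o).toNat : ℤ) = i := by omega
    rwa [e] at h3
  obtain ⟨hn1, hn2⟩ := hnt
  simp only at hn1 hn2
  rcases lt_or_ge g o with h1 | h1
  · -- the letter is to the left
    exfalso
    obtain ⟨i, hi, hne⟩ := hW (o - 1) P hP
    apply hne
    have h2 := hint (o + i) (by omega) (by omega)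
    rw [Vz_gt W g x _ (by omega), Vz_gt W g x _ (by omega)] at h2
    have e1 : o - 1 + (i : ℤ) = o + i - 1 := by ring
    have e2 : o - 1 + (i : ℤ) + P = o + i + P - 1 := by ring
    rw [e2, e1]
    exact h2
  rcases le_or_gt (o + 2 * P) g with h2 | h2
  · exfalso
    obtain ⟨i, hi, hne⟩ := hW o P hP
    apply hne
    have h3 := hint (o + i) (by omega) (by omega)
    rwa [Vz_lt W g x _ (by omega), Vz_lt W g x _ (by omega)] at h3
  rcases lt_or_ge g (o + P) with h3 | h3
  · -- the first half
    obtain ⟨b, hb⟩ := Int.eq_ofNat_of_zero_le (show 0 ≤ g - o by omega)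
    have hb' : (b : ℤ) = g - o := hb.symm
    have hbP : b < P := by omega
    have hx : W (g + P - 1) = x := by
      have h4 := hint g h1 h3
      rw [Vz_eq W g x g rfl, Vz_gt W g x _ (by omega)] at h4
      exact h4.symm
    have hl : ∀ t : ℕ, t < b → W (g - 1 - t) = W (g - 1 - t + (P - 1)) := by
      intro t ht
      have h4 := hint (g - 1 - t) (by omega) (by omega)
      rw [Vz_lt W g x _ (by omega), Vz_gt W g x _ (by omega)] at h4
      rw [h4]
      congr 1
      ring
    by_cases hb2 : b + 2 ≤ P
    · refine ⟨P, b, Or.inl ⟨hb2, hx, hl, fun t ht => ?_⟩⟩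
      have h4 := hint (g + 1 + t) (by omega) (by omega)
      rw [Vz_gt W g x _ (by omega), Vz_gt W g x _ (by omega)] at h4
      have e1 : g + 1 + (t : ℤ) - 1 = g + t := by ring
      have e2 : g + 1 + (t : ℤ) + P - 1 = g + t + P := by ring
      rwa [e1, e2] at h4
    · exfalso
      by_cases hP1 : P = 1
      · subst hP1
        apply hn2
        rw [← hx]
        congr 1
        push_cast
        ring
      · obtain ⟨i, hi, hne⟩ := hW (g - (P - 1)) (P - 1) (by omega)
        apply hne
        have h4 := hl (P - 2 - i) (by omega)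
        have e1 : g - 1 - ((P - 2 - i : ℕ) : ℤ) = g - (P - 1) + i := by omega
        rw [e1] at h4
        have e2 : ((P - 1 : ℕ) : ℤ) = (P : ℤ) - 1 := by omega
        rw [e2]
        exact h4
  · -- the second half
    obtain ⟨b, hb⟩ := Int.eq_ofNat_of_zero_le (show 0 ≤ g - o - P by omega)
    have hb' : (b : ℤ) = g - o - P := hb.symm
    have hbP : b < P := by omega
    have hx : W (g - P) = x := by
      have h4 := hint (g - P) (by omega) (by omega)
      rw [Vz_lt W g x _ (by omega), Vz_eq W g x _ (by ring)] at h4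
      exact h4
    have hr : ∀ t : ℕ, t + b + 1 < P → W (g + t) = W (g + t - (P - 1)) := by
      intro t ht
      have h4 := hint (g + 1 + t - P) (by omega) (by omega)
      rw [Vz_lt W g x _ (by omega), Vz_gt W g x _ (by omega)] at h4
      have e1 : g + 1 + (t : ℤ) - P = g + t - (P - 1) := by ring
      have e2 : g + 1 + (t : ℤ) - P + P - 1 = g + t := by ring
      rw [e2] at h4
      rw [e1] at h4
      exact h4.symm
    by_cases hb1 : 1 ≤ b
    · refine ⟨P, b, Or.inr ⟨hb1, by omega, hx, fun t ht => ?_, hr⟩⟩
      have h4 := hint (g - 1 - t - P) (by omega) (by omega)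
      rw [Vz_lt W g x _ (by omega), Vz_lt W g x _ (by omega)] at h4
      rw [h4]
      congr 1
      ring
    · exfalso
      by_cases hP1 : P = 1
      · subst hP1
        apply hn1
        rw [← hx]
        push_cast
        rfl
      · obtain ⟨i, hi, hne⟩ := hW (g - (P - 1)) (P - 1) (by omega)
        apply hne
        have h4 := hr i (by omega)
        have e2 : ((P - 1 : ℕ) : ℤ) = (P : ℤ) - 1 := by omega
        rw [e2]
        have e3 : g - ((P : ℤ) - 1) + i + (P - 1) = g + i := by ring
        have e4 : g - ((P : ℤ) - 1) + i = g + i - (P - 1) := by ring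
        rw [e3, e4]
        exact h4.symm

theorem ins_ev (w : List A) (hw : ∀ x u y : List A, u ≠ [] → w ≠ x ++ u ++ u ++ y) (p s : List A) (a : A)
    (hps : w = p ++ s) (hsq : ∃ x u y : List A, u ≠ [] ∧ p ++ a :: s = x ++ u ++ u ++ y)
    (hnt : NonTriv (Wd w) ((p.length : ℤ), Sum.inl a)) : ∃ P : ℕ, Ev (Wd w) (p.length : ℤ) (Sum.inl a) P := by
  obtain ⟨x, u, y, hu, he⟩ := hsq
  have hP : 0 < u.length := List.length_pos_of_ne_nil hu
  have hlen : p.length + s.length + 1 = x.length + u.length + u.length + y.length := by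
    have := congrArg List.length he
    simp only [List.length_append, List.length_cons] at this
    omega
  -- the letters of the long word
  have hV : ∀ (i : ℕ) (c : A), (p ++ a :: s)[i]? = some c →
      Vz (Wd w) p.length (Sum.inl a) (i : ℤ) = Sum.inl c := by
    intro i c hc
    unfold Vz
    rcases lt_trichotomy i p.length with hi | hi | hi
    · rw [if_pos (by exact_mod_cast hi)]
      apply Wd_some
      rw [hps, List.getElem?_append_left hi]
      rwa [List.getElem?_append_left hi] at hc
    · subst hi
      rw [if_neg (lt_irrefl _), if_pos rfl]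
      rw [List.getElem?_append_right (le_refl _)] at hc
      simp only [Nat.sub_self, List.getElem?_cons_zero, Option.some.injEq] at hc
      rw [hc]
    · rw [if_neg (by omega), if_neg (by omega)]
      have e1 : (i : ℤ) - 1 = ((i - 1 : ℕ) : ℤ) := by omega
      rw [e1]
      apply Wd_some
      rw [hps, List.getElem?_append_right (by omega)]
      rw [List.getElem?_append_right (by omega)] at hc
      have e2 : i - p.length = (i - 1 - p.length) + 1 := by omega
      rw [e2, List.getElem?_cons_succ] at hc
      exact hc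
  refine z_ev (Wd w) (Wd_sqf w hw) p.length (Sum.inl a) hnt x.length u.length hP ?_
  intro t ht
  have e0 : u[t]? = some (u[t]) := List.getElem?_eq_getElem ht
  have e1 : (p ++ a :: s)[x.length + t]? = some (u[t]) := by
    rw [he, List.append_assoc, List.append_assoc, List.getElem?_append_right (by omega),
      List.getElem?_append_left (by omega)]
    rw [← e0]
    congr 1
    omega
  have e2 : (p ++ a :: s)[x.length + t + u.length]? = some (u[t]) := by
    rw [he, List.append_assoc, List.append_assoc, List.getElem?_append_right (by omega),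
      List.getElem?_append_right (by omega), List.getElem?_append_left (by omega)]
    rw [← e0]
    congr 1
    omega
  have e3 := hV _ _ e1
  have e4 := hV _ _ e2
  push_cast at e3 e4
  rw [e3, e4]

end Pool.Agent.SQF
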