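import Mathlib

/-!
Square-free words: the finite certificate for near squares (half-length at most 5).
Windows are lists of labels, newest letter first.
-/

set_option autoImplicit false

namespace Pool.Agent.SQF

/-- the decision diagram of the potential: row = node, column = symbol (0,2,3,4,5 -> 0,1,2,3,4);
values >= 100 are leaves (potential + 100) -/
def hRows : List (List ℕ) := [
  [106, 106, 106, 100, 102],
  [106, 102, 0, 106, 100],
  [102, 102, 102, 100, 1],
  [106, 102, 106, 100, 102],
  [102, 102, 3, 102, 100],
  [4, 100, 100, 100, 100],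
  [2, 100, 100, 5, 100],
  [103, 100, 100, 100, 100],
  [100, 100, 7, 100, 100],
  [108, 108, 108, 104, 100],
  [108, 100, 100, 104, 100],
  [104, 10, 104, 9, 100],
  [104, 104, 104, 100, 11],
  [104, 100, 12, 104, 100],
  [13, 6, 8, 100, 100],
  [14, 100, 100, 100, 100],
  [105, 103, 105, 100, 100],
  [103, 100, 100, 16, 100],
  [109, 109, 107, 100, 109],
  [109, 109, 18, 109, 100],
  [109, 109, 109, 100, 19],
  [113, 109, 113, 109, 100],
  [109, 109, 18, 109, 109],
  [109, 109, 109, 109, 22],
  [109, 100, 100, 109, 18],
  [23, 24, 20, 21, 100],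
  [103, 100, 100, 102, 100],
  [106, 26, 100, 100, 100],
  [25, 17, 27, 100, 100],
  [108, 104, 108, 100, 100],
  [104, 100, 100, 29, 100],
  [112, 112, 112, 100, 103],
  [104, 104, 31, 9, 100],
  [104, 30, 103, 100, 32],
  [104, 100, 100, 108, 100],
  [104, 34, 104, 100, 100],
  [104, 100, 100, 35, 33],
  [111, 107, 111, 100, 100],
  [111, 107, 111, 100, 104],
  [111, 100, 100, 37, 38],
  [107, 107, 107, 104, 100],
  [111, 111, 111, 40, 100],
  [107, 39, 107, 41, 100],
  [107, 107, 107, 100, 42],
  [110, 108, 110, 100, 108],
  [108, 100, 100, 108, 44],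
  [110, 108, 110, 110, 108],
  [108, 108, 108, 108, 46],
  [47, 45, 108, 107, 100],
  [108, 107, 108, 48, 100],
  [107, 107, 107, 40, 100],
  [110, 110, 110, 107, 107],
  [107, 107, 107, 107, 51],
  [107, 107, 107, 50, 52],
  [107, 107, 107, 107, 53],
  [54, 36, 43, 49, 100],
  [104, 103, 104, 100, 100],
  [104, 100, 100, 56, 100],
  [104, 57, 104, 100, 100],
  [109, 105, 109, 109, 100],
  [109, 105, 109, 100, 59],
  [105, 105, 60, 105, 100],
  [111, 107, 107, 111, 100],
  [107, 107, 107, 100, 62],
  [63, 100, 100, 103, 100],
  [61, 64, 58, 100, 100],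
  [109, 109, 109, 100, 59],
  [109, 109, 109, 105, 100],
  [109, 109, 109, 67, 100],
  [109, 105, 66, 68, 100],
  [105, 105, 105, 100, 69],
  [70, 100, 100, 65, 100],
  [55, 71, 28, 100, 100],
  [72, 15, 100, 100, 100],
  [73, 100, 100, 100, 100]]

def hCol (s : ℕ) : ℕ := s - 1

def hStep (c s : ℕ) : ℕ := if Nat.ble 100 c then c else (hRows.getD c []).getD (hCol s) 100

/-- the potential as a function of the list of the symbols of the letters with index 1, ..., 8 -/
def hWalk (l : List ℕ) : ℕ := l.foldl hStep 74 - 100

/-- the symbol of the letter with index i (0 = newest): the distance to the next newer equal letter, if at most 5 -/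
def symOf (eq : ℕ → ℕ → Bool) (i : ℕ) : ℕ :=
  if Nat.ble 2 i && eq (i - 2) i then 2 else
  if Nat.ble 3 i && eq (i - 3) i then 3 else
  if Nat.ble 4 i && eq (i - 4) i then 4 else
  if Nat.ble 5 i && eq (i - 5) i then 5 else 0

/-- potential of the nine newest letters, eq i k = letters with index i, k are equal -/
def hPot (eq : ℕ → ℕ → Bool) : ℕ := hWalk ((List.range 8).map (fun i => symOf eq (i + 1)))

def leq (l : List ℕ) (i k : ℕ) : Bool := Nat.beq (l.getD i 0) (l.getD k 0)

/-- L-event (P,b) ending at the newest letter -/
def evL (l : List ℕ) (P b : ℕ) : Bool :=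
  Nat.ble (2 * P - 1) l.length && (List.range (P - 1 - b)).all (fun i => leq l (i + P) i) &&
  (List.range b).all (fun t => leq l (P - b + t + (P - 1)) (P - b + t))

/-- R-event (P,b) ending at the newest letter -/
def evR (l : List ℕ) (P b : ℕ) : Bool :=
  Nat.ble (2 * P - 1) l.length && (List.range b).all (fun t => leq l (P - 1 - b + t + P) (P - 1 - b + t)) &&
  (List.range (P - 1 - b)).all (fun i => leq l (i + (P - 1)) i)

/-- codes G * 16 + x of the pairs blocked by squares ending at the newest letter; G = number of letters after the gap,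
x = label -/
def evs (l : List ℕ) : List ℕ :=
  ([2, 3, 4, 5].flatMap (fun P => (List.range (P - 1)).flatMap (fun b =>
    (if evL l P b then [(2 * P - 1 - b) * 16 + l.getD (P - 1 - b) 0] else []) ++
    (if evR l P (b + 1) then [(P - 2 - b) * 16 + l.getD (2 * P - 3 - b) 0] else []))))

/-- codes of all pairs blocked within the window -/
def blk : List ℕ → List ℕ
  | [] => []
  | (a :: l) => evs (a :: l) ++ (blk l).map (fun z => z + 16)

def mem (a : ℕ) (l : List ℕ) : Bool := l.any (fun b => Nat.beq a b)

/-- number of distinct elements of the first list which are not in the second list -/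
def cntNew : List ℕ → List ℕ → ℕ
  | [], _ => 0
  | (a :: l), o => if mem a o then cntNew l o else cntNew l (a :: o) + 1

/-- number of new codes at the newest letter -/
def gain (l : List ℕ) : ℕ := cntNew (evs l) ((blk l.tail).map (fun z => z + 16))

/-- the newest letter completes a run with p = 4, k = 3 -/
def r43 (l : List ℕ) : ℕ := if leq l 4 0 && leq l 5 1 && leq l 6 2 then 1 else 0

/-- the newest letter ends a square of half-length at most 5 -/
def sqEnd (l : List ℕ) : Bool :=
  [1, 2, 3, 4, 5].any (fun P => Nat.ble (2 * P) l.length && (List.range P).all (fun i => leq l (i + P) i))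

def leafOK (l : List ℕ) : Bool :=
  Nat.ble (4 * gain l + hPot (leq l)) (5 + 4 * r43 l + hPot (leq l.tail))

/-- candidates for the next label: labels of the five newest letters, and the fresh label = length -/
def cands (l : List ℕ) : List ℕ := (l.take 5).dedup ++ [l.length]

def chk : ℕ → List ℕ → Bool
  | 0, l => leafOK l
  | (f + 1), l => (cands l).all (fun x => sqEnd (x :: l) || chk f (x :: l))

/-- the surviving windows after f more letters -/
def nodes : ℕ → List ℕ → List (List ℕ)
  | 0, l => [l]
  | (f + 1), l => (cands l).flatMap (fun x => if sqEnd (x :: l) then [] else nodes f (x :: l))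

theorem chk_nodes (g : ℕ) : ∀ (f : ℕ) (l : List ℕ), (∀ m ∈ nodes f l, chk g m = true) →
    chk (f + g) l = true
  | 0, l, h => by simpa [nodes] using h l (by simp [nodes])
  | (f + 1), l, h => by
      have e : f + 1 + g = (f + g) + 1 := by omega
      rw [e, chk, List.all_eq_true]
      intro x hx
      by_cases hs : sqEnd (x :: l) = true
      · simp [hs]
      · have := chk_nodes g f (x :: l) (fun m hm => h m (by
          rw [nodes, List.mem_flatMap]
          exact ⟨x, hx, by simpa [hs] using hm⟩))
        simp [this]

end Pool.Agent.SQF
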