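import Mathlib
import Pool.Agent.SQF.NDef

set_option autoImplicit false
set_option maxRecDepth 100000

namespace Pool.Agent.SQF

theorem nc0_0 : chk 4 [3, 1, 3, 0, 1, 0] = true := by decide +kernel
theorem nc0_1 : chk 4 [0, 1, 3, 0, 1, 0] = true := by decide +kernel
theorem nc0_2 : chk 4 [5, 1, 3, 0, 1, 0] = true := by decide +kernel
theorem nc0_3 : chk 4 [1, 0, 3, 0, 1, 0] = true := by decide +kernel
theorem nc0_4 : chk 4 [5, 0, 3, 0, 1, 0] = true := by decide +kernel
theorem nc0_5 : chk 4 [3, 4, 3, 0, 1, 0] = true := by decide +kernel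
theorem nc0_6 : chk 4 [1, 4, 3, 0, 1, 0] = true := by decide +kernel
theorem nc0_7 : chk 4 [0, 4, 3, 0, 1, 0] = true := by decide +kernel
theorem nc0_8 : chk 4 [5, 4, 3, 0, 1, 0] = true := by decide +kernel
theorem nc0_9 : chk 4 [2, 0, 1, 2, 1, 0] = true := by decide +kernel

end Pool.Agent.SQF
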