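import Mathlib
import Pool.Agent.SQF.NDef

set_option autoImplicit false
set_option maxRecDepth 100000

namespace Pool.Agent.SQF

theorem nc1_0 : chk 4 [1, 0, 1, 2, 1, 0] = true := by decide +kernel
theorem nc1_1 : chk 4 [5, 0, 1, 2, 1, 0] = true := by decide +kernel
theorem nc1_2 : chk 4 [2, 4, 1, 2, 1, 0] = true := by decide +kernel
theorem nc1_3 : chk 4 [1, 4, 1, 2, 1, 0] = true := by decide +kernel
theorem nc1_4 : chk 4 [0, 4, 1, 2, 1, 0] = true := by decide +kernel
theorem nc1_5 : chk 4 [5, 4, 1, 2, 1, 0] = true := by decide +kernel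
theorem nc1_6 : chk 4 [1, 2, 0, 2, 1, 0] = true := by decide +kernel
theorem nc1_7 : chk 4 [5, 2, 0, 2, 1, 0] = true := by decide +kernel
theorem nc1_8 : chk 4 [0, 1, 0, 2, 1, 0] = true := by decide +kernel
theorem nc1_9 : chk 4 [5, 1, 0, 2, 1, 0] = true := by decide +kernel

end Pool.Agent.SQF
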