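import Mathlib
import Pool.Agent.SQF.NC0
import Pool.Agent.SQF.NC1
import Pool.Agent.SQF.NC2
import Pool.Agent.SQF.NC3

set_option autoImplicit false
set_option maxRecDepth 100000

namespace Pool.Agent.SQF

theorem nodes6 : nodes 6 [] = [
  [3, 1, 3, 0, 1, 0],
  [0, 1, 3, 0, 1, 0],
  [5, 1, 3, 0, 1, 0],
  [1, 0, 3, 0, 1, 0],
  [5, 0, 3, 0, 1, 0],
  [3, 4, 3, 0, 1, 0],
  [1, 4, 3, 0, 1, 0],
  [0, 4, 3, 0, 1, 0],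
  [5, 4, 3, 0, 1, 0],
  [2, 0, 1, 2, 1, 0],
  [1, 0, 1, 2, 1, 0],
  [5, 0, 1, 2, 1, 0],
  [2, 4, 1, 2, 1, 0],
  [1, 4, 1, 2, 1, 0],
  [0, 4, 1, 2, 1, 0],
  [5, 4, 1, 2, 1, 0],
  [1, 2, 0, 2, 1, 0],
  [5, 2, 0, 2, 1, 0],
  [0, 1, 0, 2, 1, 0],
  [5, 1, 0, 2, 1, 0],
  [2, 4, 0, 2, 1, 0],
  [1, 4, 0, 2, 1, 0],
  [0, 4, 0, 2, 1, 0],
  [5, 4, 0, 2, 1, 0],
  [1, 2, 3, 2, 1, 0],
  [0, 2, 3, 2, 1, 0],
  [5, 2, 3, 2, 1, 0],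
  [3, 1, 3, 2, 1, 0],
  [2, 1, 3, 2, 1, 0],
  [0, 1, 3, 2, 1, 0],
  [5, 1, 3, 2, 1, 0],
  [3, 0, 3, 2, 1, 0],
  [2, 0, 3, 2, 1, 0],
  [1, 0, 3, 2, 1, 0],
  [5, 0, 3, 2, 1, 0],
  [3, 4, 3, 2, 1, 0],
  [2, 4, 3, 2, 1, 0],
  [1, 4, 3, 2, 1, 0],
  [0, 4, 3, 2, 1, 0],
  [5, 4, 3, 2, 1, 0]] := by decide +kernel

theorem near_chk : chk 10 [] = true := by
  refine chk_nodes 4 6 [] ?_
  rw [nodes6]
  intro m hm
  simp only [List.mem_cons, List.not_mem_nil, or_false] at hm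
  rcases hm with rfl | rfl | rfl | rfl | rfl | rfl | rfl | rfl | rfl | rfl | rfl | rfl | rfl | rfl | rfl | rfl | rfl | rfl | rfl | rfl | rfl | rfl | rfl | rfl | rfl | rfl | rfl | rfl | rfl | rfl | rfl | rfl | rfl | rfl | rfl | rfl | rfl | rfl | rfl | rfl
  · exact nc0_0
  · exact nc0_1
  · exact nc0_2
  · exact nc0_3
  · exact nc0_4
  · exact nc0_5
  · exact nc0_6
  · exact nc0_7
  · exact nc0_8
  · exact nc0_9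
  · exact nc1_0
  · exact nc1_1
  · exact nc1_2
  · exact nc1_3
  · exact nc1_4
  · exact nc1_5
  · exact nc1_6
  · exact nc1_7
  · exact nc1_8
  · exact nc1_9
  · exact nc2_0
  · exact nc2_1
  · exact nc2_2
  · exact nc2_3
  · exact nc2_4
  · exact nc2_5
  · exact nc2_6
  · exact nc2_7
  · exact nc2_8
  · exact nc2_9
  · exact nc3_0
  · exact nc3_1
  · exact nc3_2
  · exact nc3_3
  · exact nc3_4
  · exact nc3_5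
  · exact nc3_6
  · exact nc3_7
  · exact nc3_8
  · exact nc3_9

end Pool.Agent.SQF
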