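import Mathlib
import Pool.Agent.SQF.Def
import Pool.Agent.SQF.NCert

/-!
LABELS. near_chk : chk 10 [] = true is proved (NCert). This file transports the check to words.

Lab W j m l: l is a list of labels of the letters W j, W (j-1), ..., W (j-m+1) (newest first), equal labels imply equal letters,
and equal letters at distance ≤ 5 have equal labels; labels are < m.

(1) lab_nil: trivial. lab_tail: Lab W j (m+1) (a::l) → Lab W (j-1) m l needs labels of l < m: therefore the last clause of Lab is:
    the label at the index i is < m - i (the label introduced at length t is t, and older labels are smaller).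
(2) lab_step: Lab W (j-1) m l. If W j = W (j-d) for some 1 ≤ d ≤ 5, d ≤ m, take the smallest such d and x = label of W (j-d)
    (index d-1 in l, in l.take 5). Equal labels → equal letters: clear. Equal letters within distance 5: if W j = W (j-e),
    d ≤ e ≤ 5 then W (j-d) = W (j-e) at distance ≤ 4, so the labels agree. Otherwise x = l.length = m: a new label (all others are
    < m), no letter at distance ≤ 5 is equal.
(3) sqEnd_false: sqEnd l = true gives P in 1..5 with 2P ≤ m and W (j-i-P) = W (j-i) for i < P: a square at s = j-2P+1.
(4) chk_sound: induction on f, using (2), (3) and the definition of chk.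
(5) leaf: start with Lab W (j-10) 0 [] and chk 10 [].
-/

set_option autoImplicit false

namespace Pool.Agent.SQF

variable {β : Type*} {W : ℤ → β} {n : ℕ}

structure Lab (W : ℤ → β) (j : ℤ) (m : ℕ) (l : List ℕ) : Prop where
  len : l.length = m
  eq_of : ∀ i k : ℕ, i < m → k < m → l.getD i 0 = l.getD k 0 → W (j - i) = W (j - k)
  of_eq : ∀ i k : ℕ, i < m → k < m → i ≤ k → k ≤ i + 5 → W (j - i) = W (j - k) → l.getD i 0 = l.getD k 0
  lt : ∀ i : ℕ, i < m → l.getD i 0 + i < m

theorem lab_nil (j : ℤ) : Lab W j 0 [] := by
  refine ⟨rfl, ?_, ?_, ?_⟩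
  · intro i k hi; omega
  · intro i k hi; omega
  · intro i hi; omega

private theorem cast1 (j : ℤ) (i : ℕ) : j - ((i + 1 : ℕ) : ℤ) = j - 1 - i := by
  push_cast; ring

theorem lab_tail {j : ℤ} {m a : ℕ} {l : List ℕ} (h : Lab W j (m + 1) (a :: l)) : Lab W (j - 1) m l := by
  refine ⟨?_, ?_, ?_, ?_⟩
  · have := h.len
    simpa using this
  · intro i k hi hk e
    have := h.eq_of (i + 1) (k + 1) (by omega) (by omega) (by simpa using e)
    rwa [cast1, cast1] at this
  · intro i k hi hk hik hki e
    have := h.of_eq (i + 1) (k + 1) (by omega) (by omega) (by omega) (by omega)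
      (by rw [cast1, cast1]; exact e)
    simpa using this
  · intro i hi
    have := h.lt (i + 1) (by omega)
    rw [List.getD_cons_succ] at this
    omega

theorem lab_step {j : ℤ} {m : ℕ} {l : List ℕ} (h : Lab W (j - 1) m l) : ∃ x ∈ cands l, Lab W j (m + 1) (x :: l) := by
  classical
  by_cases hd : ∃ d : ℕ, d < 5 ∧ d < m ∧ W j = W (j - 1 - d)
  · obtain ⟨h5, hm, hW⟩ := Nat.find_spec hd
    have hmin : ∀ k : ℕ, k < 5 → k < m → W j = W (j - 1 - k) → Nat.find hd ≤ k :=
      fun k a b c => Nat.find_min' hd ⟨a, b, c⟩
    generalize Nat.find hd = d at h5 hm hW hmin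
    refine ⟨l.getD d 0, ?_, ?_, ?_, ?_, ?_⟩
    · rw [cands, List.mem_append, List.mem_dedup]
      left
      have hl : d < l.length := by rw [h.len]; exact hm
      rw [List.getD_eq_getElem _ _ hl, List.mem_take_iff_getElem]
      exact ⟨d, by omega, rfl⟩
    · simp [h.len]
    · intro i k hi hk e
      rcases i with _ | i <;> rcases k with _ | k
      · rfl
      · rw [List.getD_cons_zero, List.getD_cons_succ] at e
        have := h.eq_of d k hm (by omega) e
        rw [cast1, ← this, ← hW]
        simp
      · rw [List.getD_cons_zero, List.getD_cons_succ] at e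
        have := h.eq_of i d (by omega) hm e
        rw [cast1, this, ← hW]
        simp
      · rw [List.getD_cons_succ, List.getD_cons_succ] at e
        rw [cast1, cast1]
        exact h.eq_of i k (by omega) (by omega) e
    · intro i k hi hk hik hki e
      rcases i with _ | i <;> rcases k with _ | k
      · rfl
      · rw [List.getD_cons_zero, List.getD_cons_succ]
        rw [cast1] at e
        have e' : W j = W (j - 1 - k) := by simpa using e
        have hdk := hmin k (by omega) (by omega) e'
        exact h.of_eq d k hm (by omega) hdk (by omega) (hW.symm.trans e')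
      · omega
      · rw [List.getD_cons_succ, List.getD_cons_succ]
        rw [cast1, cast1] at e
        exact h.of_eq i k (by omega) (by omega) (by omega) (by omega) e
    · intro i hi
      rcases i with _ | i
      · rw [List.getD_cons_zero]
        have := h.lt d hm
        omega
      · rw [List.getD_cons_succ]
        have := h.lt i (by omega)
        omega
  · have hno : ∀ d : ℕ, d < 5 → d < m → W j ≠ W (j - 1 - d) := fun d a b c => hd ⟨d, a, b, c⟩
    refine ⟨l.length, ?_, ?_, ?_, ?_, ?_⟩
    · simp [cands]
    · simp [h.len]
    · intro i k hi hk e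
      rcases i with _ | i <;> rcases k with _ | k
      · rfl
      · rw [List.getD_cons_zero, List.getD_cons_succ, h.len] at e
        have := h.lt k (by omega)
        omega
      · rw [List.getD_cons_zero, List.getD_cons_succ, h.len] at e
        have := h.lt i (by omega)
        omega
      · rw [List.getD_cons_succ, List.getD_cons_succ] at e
        rw [cast1, cast1]
        exact h.eq_of i k (by omega) (by omega) e
    · intro i k hi hk hik hki e
      rcases i with _ | i <;> rcases k with _ | k
      · rfl
      · rw [cast1] at e
        have e' : W j = W (j - 1 - k) := by simpa using e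
        exact absurd e' (hno k (by omega) (by omega))
      · omega
      · rw [List.getD_cons_succ, List.getD_cons_succ]
        rw [cast1, cast1] at e
        exact h.of_eq i k (by omega) (by omega) (by omega) (by omega) e
    · intro i hi
      rcases i with _ | i
      · rw [List.getD_cons_zero, h.len]
        omega
      · rw [List.getD_cons_succ]
        have := h.lt i (by omega)
        omega

theorem sqEnd_false (hW : Sqf W) {j : ℤ} {m : ℕ} {l : List ℕ} (h : Lab W j m l) : sqEnd l = false := by
  by_contra hc
  rw [Bool.not_eq_false, sqEnd, List.any_eq_true] at hc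
  obtain ⟨P, hP, hP2⟩ := hc
  have hP0 : 0 < P := by
    simp only [List.mem_cons, List.not_mem_nil, or_false] at hP
    omega
  rw [Bool.and_eq_true, List.all_eq_true] at hP2
  obtain ⟨hlen, hall⟩ := hP2
  have hlen' : 2 * P ≤ m := by
    rw [← h.len]; exact Nat.le_of_ble_eq_true hlen
  obtain ⟨i, hi, hne⟩ := hW (j - 2 * P + 1) P hP0
  apply hne
  have hk := hall (P - 1 - i) (by rw [List.mem_range]; omega)
  rw [leq, Nat.beq_eq] at hk
  have := h.eq_of (P - 1 - i + P) (P - 1 - i) (by omega) (by omega) hk
  have e1 : j - 2 * P + 1 + i = j - ((P - 1 - i + P : ℕ) : ℤ) := by omega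
  have e2 : j - 2 * P + 1 + i + P = j - ((P - 1 - i : ℕ) : ℤ) := by omega
  rw [e2, e1, this]

theorem chk_sound (hW : Sqf W) (f : ℕ) (j : ℤ) (m : ℕ) (l : List ℕ) (h : Lab W (j - f) m l) (hc : chk f l = true) :
    ∃ l' : List ℕ, Lab W j (m + f) l' ∧ leafOK l' = true := by
  induction f generalizing m l with
  | zero =>
    refine ⟨l, ?_, by simpa [chk] using hc⟩
    simpa using h
  | succ f ih =>
    have h' : Lab W (j - f - 1) m l := by
      have e : j - ((f + 1 : ℕ) : ℤ) = j - f - 1 := by push_cast; ring
      rwa [e] at h
    obtain ⟨x, hx, hL⟩ := lab_step h'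
    rw [chk, List.all_eq_true] at hc
    have hcx := hc x hx
    rw [sqEnd_false hW hL, Bool.false_or] at hcx
    obtain ⟨l', h1, h2⟩ := ih (m + 1) (x :: l) hL hcx
    refine ⟨l', ?_, h2⟩
    have e : m + (f + 1) = m + 1 + f := by omega
    rw [e]; exact h1

theorem leaf (hW : Sqf W) (j : ℤ) : ∃ l : List ℕ, Lab W j 10 l ∧ leafOK l = true := by
  have := chk_sound hW 10 j 0 [] (lab_nil _) near_chk
  simpa using this

end Pool.Agent.SQF
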