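import Mathlib
import Pool.Agent.SQF.N1

/-!
CODES. NEnd W j z: z = (g,x) is blocked by a near square whose last letter is W j (or the inserted letter, after W j).

(1) evs_sound: c in evs l. Either evL l P b = true with 2 ≤ P ≤ 5, b ≤ P-2 and c = (2P-1-b)*16 + label with the index P-1-b: put
    g = j + 1 - (2P-1-b); then LEv W g (W (j-(P-1-b))) P b: g+P-1 = j-(P-1-b); for t < b: g-1-t = j-(2P-1-b+t), and
    g-1-t+(P-1) = j-(P-b+t): indices P-b+t+(P-1) and P-b+t of the test; for t < P-1-b: g+t = j-(2P-2-b-t), g+t+P = j-(P-2-b-t):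
    the test with i = P-2-b-t, indices i+P and i. The end is g+2P-2-b = j.
    Or evR l P (b+1) = true (0 ≤ b ≤ P-2), c = (P-2-b)*16 + label with the index 2P-3-b: with b' = b+1, g = j+1-(P-1-b'),
    x = W (g-P) = W (j-(2P-2-b')); the end is g+P-2-b' = j.
    All indices are < 2P-1 ≤ length.
(2) evs_complete: m ≥ 9; a near event ending at j gives a code in evs l (distances in the tests are P or P-1 ≤ 5, so of_eq applies;
    all indices < 9).
(3) blk_sound: induction on l with lab_tail.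
-/

set_option autoImplicit false

namespace Pool.Agent.SQF

variable {β : Type*} {W : ℤ → β} {n : ℕ}

/-- z is blocked by a near square ending at j -/
def NEnd (W : ℤ → β) (j : ℤ) (z : ℤ × β) : Prop :=
  ∃ P b : ℕ, P ≤ 5 ∧ ((LEv W z.1 z.2 P b ∧ z.1 + 2 * P - 2 - b = j) ∨ (REv W z.1 z.2 P b ∧ z.1 + P - 2 - b = j))

private theorem n2_mem_evs {l : List ℕ} {c : ℕ} : c ∈ evs l ↔ ∃ P b : ℕ, 2 ≤ P ∧ P ≤ 5 ∧ b < P - 1 ∧
    ((evL l P b = true ∧ c = (2 * P - 1 - b) * 16 + l.getD (P - 1 - b) 0) ∨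
      (evR l P (b + 1) = true ∧ c = (P - 2 - b) * 16 + l.getD (2 * P - 3 - b) 0)) := by
  unfold evs
  simp only [List.mem_flatMap, List.mem_range, List.mem_append]
  constructor
  · rintro ⟨P, hP, b, hb, h⟩
    simp only [List.mem_cons, List.not_mem_nil, or_false] at hP
    refine ⟨P, b, by omega, by omega, hb, ?_⟩
    rcases h with h | h
    · left
      by_cases he : evL l P b = true
      · rw [if_pos he, List.mem_singleton] at h
        exact ⟨he, h⟩
      · rw [if_neg he] at h
        exact absurd h List.not_mem_nil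
    · right
      by_cases he : evR l P (b + 1) = true
      · rw [if_pos he, List.mem_singleton] at h
        exact ⟨he, h⟩
      · rw [if_neg he] at h
        exact absurd h List.not_mem_nil
  · rintro ⟨P, b, h2, h5, hb, h⟩
    refine ⟨P, ?_, b, hb, ?_⟩
    · simp only [List.mem_cons, List.not_mem_nil, or_false]
      omega
    · rcases h with ⟨he, h⟩ | ⟨he, h⟩
      · left
        rw [if_pos he, List.mem_singleton]
        exact h
      · right
        rw [if_pos he, List.mem_singleton]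
        exact h

private theorem n2_evL {l : List ℕ} {P b : ℕ} : evL l P b = true ↔ 2 * P - 1 ≤ l.length ∧
    (∀ i < P - 1 - b, l.getD (i + P) 0 = l.getD i 0) ∧
    ∀ t < b, l.getD (P - b + t + (P - 1)) 0 = l.getD (P - b + t) 0 := by
  unfold evL leq
  simp only [Bool.and_eq_true, List.all_eq_true, List.mem_range, Nat.beq_eq, Nat.ble_eq, and_assoc]

private theorem n2_evR {l : List ℕ} {P b : ℕ} : evR l P b = true ↔ 2 * P - 1 ≤ l.length ∧
    (∀ t < b, l.getD (P - 1 - b + t + P) 0 = l.getD (P - 1 - b + t) 0) ∧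
    ∀ i < P - 1 - b, l.getD (i + (P - 1)) 0 = l.getD i 0 := by
  unfold evR leq
  simp only [Bool.and_eq_true, List.all_eq_true, List.mem_range, Nat.beq_eq, Nat.ble_eq, and_assoc]

theorem evs_sound {j : ℤ} {m : ℕ} {l : List ℕ} (h : Lab W j m l) {c : ℕ} (hc : c ∈ evs l) :
    ∃ G i : ℕ, i < m ∧ c = G * 16 + l.getD i 0 ∧ NEnd W j (j + 1 - G, W (j - i)) := by
  obtain ⟨P, b, h2, h5, hb, hh⟩ := n2_mem_evs.1 hc
  have key : ∀ a d : ℕ, a < m → d < m → l.getD a 0 = l.getD d 0 → ∀ u v : ℤ, u = j - a →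
      v = j - d → W u = W v := by
    intro a d ha hd h1 u v hu hv
    rw [hu, hv]
    exact h.eq_of a d ha hd h1
  have hlen := h.len
  rcases hh with ⟨he, hc⟩ | ⟨he, hc⟩
  · obtain ⟨e1, e2, e3⟩ := n2_evL.1 he
    refine ⟨2 * P - 1 - b, P - 1 - b, by omega, hc, P, b, h5, Or.inl ⟨⟨by omega, ?_, ?_, ?_⟩, ?_⟩⟩
    · dsimp only
      congr 1
      omega
    · intro t ht
      dsimp only
      exact key _ _ (by omega) (by omega) (e3 t ht) _ _ (by omega) (by omega)
    · intro t ht
      dsimp only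
      exact key _ _ (by omega) (by omega) (e2 (P - 2 - b - t) (by omega)) _ _ (by omega) (by omega)
    · dsimp only
      omega
  · obtain ⟨e1, e2, e3⟩ := n2_evR.1 he
    refine ⟨P - 2 - b, 2 * P - 3 - b, by omega, hc, P, b + 1, h5,
      Or.inr ⟨⟨by omega, by omega, ?_, ?_, ?_⟩, ?_⟩⟩
    · dsimp only
      congr 1
      omega
    · intro t ht
      dsimp only
      exact (key _ _ (by omega) (by omega) (e2 t ht) _ _ (by omega) (by omega)).symm
    · intro t ht
      dsimp only
      exact (key _ _ (by omega) (by omega) (e3 (P - 2 - (b + 1) - t) (by omega)) _ _ (by omega)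
        (by omega)).symm
    · dsimp only
      omega

theorem evs_complete {j : ℤ} {m : ℕ} {l : List ℕ} (h : Lab W j m l) (hm : 9 ≤ m) {z : ℤ × β} (hz : NEnd W j z) :
    ∃ G i : ℕ, i < m ∧ (G * 16 + l.getD i 0) ∈ evs l ∧ z = (j + 1 - G, W (j - i)) := by
  obtain ⟨P, b, h5, hh⟩ := hz
  have key : ∀ a d : ℕ, a < m → d < m → d ≤ a → a ≤ d + 5 → ∀ u v : ℤ, u = j - a →
      v = j - d → W u = W v → l.getD a 0 = l.getD d 0 := by
    intro a d ha hd h1 h2 u v hu hv hW
    rw [hu, hv] at hW
    exact (h.of_eq d a hd ha h1 h2 hW.symm).symm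
  have hlen := h.len
  obtain ⟨g, x⟩ := z
  dsimp only at hh
  rcases hh with ⟨⟨e0, e1, e2, e3⟩, e4⟩ | ⟨⟨e00, e0, e1, e2, e3⟩, e4⟩
  · refine ⟨2 * P - 1 - b, P - 1 - b, by omega, n2_mem_evs.2 ⟨P, b, by omega, h5, by omega,
      Or.inl ⟨n2_evL.2 ⟨by omega, ?_, ?_⟩, rfl⟩⟩, ?_⟩
    · intro i hi
      exact key _ _ (by omega) (by omega) (by omega) (by omega) _ _ (by omega) (by omega)
        (e3 (P - 2 - b - i) (by omega))
    · intro t ht
      exact key _ _ (by omega) (by omega) (by omega) (by omega) _ _ (by omega) (by omega) (e2 t ht)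
    · rw [← e1, Prod.mk.injEq]
      refine ⟨by omega, ?_⟩
      congr 1
      omega
  · refine ⟨P - 2 - (b - 1), 2 * P - 3 - (b - 1), by omega, n2_mem_evs.2 ⟨P, b - 1, by omega, h5,
      by omega, Or.inr ⟨n2_evR.2 ⟨by omega, ?_, ?_⟩, rfl⟩⟩, ?_⟩
    · intro t ht
      exact key _ _ (by omega) (by omega) (by omega) (by omega) _ _ (by omega) (by omega)
        (e2 t (by omega)).symm
    · intro i hi
      exact key _ _ (by omega) (by omega) (by omega) (by omega) _ _ (by omega) (by omega)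
        (e3 (P - 1 - b - 1 - i) (by omega)).symm
    · rw [← e1, Prod.mk.injEq]
      refine ⟨by omega, ?_⟩
      congr 1
      omega

theorem blk_sound {j : ℤ} {m : ℕ} {l : List ℕ} (h : Lab W j m l) {c : ℕ} (hc : c ∈ blk l) :
    ∃ G i : ℕ, i < m ∧ c = G * 16 + l.getD i 0 ∧ ∃ j' : ℤ, j' ≤ j ∧ NEnd W j' (j + 1 - G, W (j - i)) := by
  induction l generalizing j m c with
  | nil => exact absurd hc List.not_mem_nil
  | cons a l ih =>
    rw [blk, List.mem_append] at hc
    rcases hc with hc | hc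
    · obtain ⟨G, i, hi, hc', hN⟩ := evs_sound h hc
      exact ⟨G, i, hi, hc', j, le_rfl, hN⟩
    · rw [List.mem_map] at hc
      obtain ⟨z, hz, rfl⟩ := hc
      obtain ⟨m', rfl⟩ : ∃ m', m = m' + 1 := by
        have hlen := h.len
        rw [List.length_cons] at hlen
        exact ⟨l.length, hlen.symm⟩
      obtain ⟨G, i, hi, hz', j', hj', hN⟩ := ih (lab_tail h) hz
      refine ⟨G + 1, i + 1, by omega, ?_, j', by omega, ?_⟩
      · rw [List.getD_cons_succ, hz']
        ring
      · have e1 : j + 1 - ((G + 1 : ℕ) : ℤ) = j - 1 + 1 - G := by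
          push_cast
          ring
        have e2 : j - ((i + 1 : ℕ) : ℤ) = j - 1 - i := by
          push_cast
          ring
        rw [e1, e2]
        exact hN

end Pool.Agent.SQF
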