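import Mathlib
import Pool.Agent.SQF.N2

/-!
THE LOCAL INEQUALITY. Take l from leaf (N1) for j (m = 10).

(1) hPot (leq l) = Hr W j: symOf (leq l) i, i ≤ 8, only uses leq l (i-d) i with 2 ≤ d ≤ 5, d ≤ i: by eq_of and of_eq this is
    decide (W (j-(i-d)) = W (j-i)). The same for l.tail and j-1 (leq l.tail i k = leq l (i+1) (k+1)).
(2) r43 l = ind W j (distances 4).
(3) cntNew_ge: if C is a finset, C ⊆ l.toFinset, no element of C in o, then C.card ≤ cntNew l o (induction on l; mem a l = true iff
    a ∈ l; in the second case apply the induction hypothesis to C.erase a).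
(4) Z.card ≤ gain l: for z in Z choose G, i (evs_complete); the code is G*16 + label, label < 16; the map is injective: equal codes
    give equal G and equal labels, so equal z (eq_of). The code is not in (blk l.tail).map (+16): otherwise blk_sound (for j-1) gives
    G', i' and j' ≤ j-1 with G = G'+1, equal labels, so NEnd W j' z with j' < j: contradiction.
(5) leafOK l: 4 gain l + hPot (leq l) ≤ 5 + 4 r43 l + hPot (leq l.tail).
-/

set_option autoImplicit false

namespace Pool.Agent.SQF

variable {β : Type*} {W : ℤ → β} {n : ℕ}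

open Classical in
/-- potential of the nine letters ending at j -/
noncomputable def Hr (W : ℤ → β) (j : ℤ) : ℕ := hPot (fun i k => decide (W (j - i) = W (j - k)))

open Classical in
/-- the letter j completes a run with p = 4, k = 3 -/
noncomputable def ind (W : ℤ → β) (j : ℤ) : ℕ :=
  if W (j - 4) = W j ∧ W (j - 5) = W (j - 1) ∧ W (j - 6) = W (j - 2) then 1 else 0

theorem mem_iff (a : ℕ) (l : List ℕ) : mem a l = true ↔ a ∈ l := by
  unfold mem
  rw [List.any_eq_true]
  constructor
  · rintro ⟨b, hb, hab⟩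
    rw [Nat.eq_of_beq_eq_true hab]
    exact hb
  · intro h
    exact ⟨a, h, Nat.beq_refl a⟩

theorem cntNew_ge (l o : List ℕ) (C : Finset ℕ) (h1 : ∀ c ∈ C, c ∈ l) (h2 : ∀ c ∈ C, c ∉ o) :
    C.card ≤ cntNew l o := by
  induction l generalizing o C with
  | nil =>
    have h3 : C = ∅ := Finset.eq_empty_of_forall_notMem fun c hc => by simpa using h1 c hc
    rw [h3]
    simp
  | cons a l ih =>
    rw [cntNew]
    by_cases hm : mem a o = true
    · rw [if_pos hm]
      apply ih o C _ h2
      intro c hc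
      rcases List.mem_cons.1 (h1 c hc) with h | h
      · exact absurd (by rw [h]; exact (mem_iff a o).1 hm) (h2 c hc)
      · exact h
    · rw [if_neg hm]
      have h3 := ih (a :: o) (C.erase a) (fun c hc => by
          rw [Finset.mem_erase] at hc
          rcases List.mem_cons.1 (h1 c hc.2) with h | h
          · exact absurd h hc.1
          · exact h) (fun c hc => by
          rw [Finset.mem_erase] at hc
          rw [List.mem_cons, not_or]
          exact ⟨hc.1, h2 c hc.2⟩)
      have h4 : C.card ≤ (C.erase a).card + 1 := by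
        have := Finset.pred_card_le_card_erase (s := C) (a := a)
        omega
      omega

open Classical in
theorem leq_eq {j : ℤ} {m : ℕ} {l : List ℕ} (h : Lab W j m l) {i k : ℕ} (hi : i < m) (hk : k < m) (hik : i ≤ k)
    (hki : k ≤ i + 5) : leq l i k = decide (W (j - i) = W (j - k)) := by
  have h1 : leq l i k = true ↔ W (j - i) = W (j - k) := by
    unfold leq
    rw [Nat.beq_eq]
    exact ⟨h.eq_of i k hi hk, h.of_eq i k hi hk hik hki⟩
  by_cases h2 : W (j - i) = W (j - k)
  · rw [h1.2 h2, decide_eq_true h2]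
  · rw [decide_eq_false h2, ← Bool.not_eq_true, h1]
    exact h2

theorem symOf_congr {e e' : ℕ → ℕ → Bool} {i : ℕ} (h : ∀ d, 2 ≤ d → d ≤ 5 → d ≤ i → e (i - d) i = e' (i - d) i) :
    symOf e i = symOf e' i := by
  have h1 : ∀ d, 2 ≤ d → d ≤ 5 → (Nat.ble d i && e (i - d) i) = (Nat.ble d i && e' (i - d) i) := by
    intro d hd1 hd2
    by_cases hd : d ≤ i
    · rw [h d hd1 hd2 hd]
    · have h2 : Nat.ble d i = false := by
        rw [← Bool.not_eq_true, Nat.ble_eq]
        exact hd
      rw [h2, Bool.false_and, Bool.false_and]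
  unfold symOf
  rw [h1 2 (by norm_num) (by norm_num), h1 3 (by norm_num) (by norm_num), h1 4 (by norm_num) (by norm_num),
    h1 5 (by norm_num) (by norm_num)]

theorem hPot_eq {j : ℤ} {m : ℕ} {l : List ℕ} (h : Lab W j m l) (hm : 9 ≤ m) : hPot (leq l) = Hr W j := by
  unfold Hr hPot
  congr 1
  apply List.map_congr_left
  intro i hi
  rw [List.mem_range] at hi
  apply symOf_congr
  intro d _ hd2 hd3
  exact leq_eq h (by omega) (by omega) (by omega) (by omega)

theorem r43_eq {j : ℤ} {m : ℕ} {l : List ℕ} (h : Lab W j m l) (hm : 9 ≤ m) : r43 l = ind W j := by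
  classical
  have e : ∀ a b : ℕ, leq l b a = leq l a b := by
    intro a b
    unfold leq
    by_cases hab : l.getD a 0 = l.getD b 0
    · rw [hab]
    · have h1 : Nat.beq (l.getD a 0) (l.getD b 0) = false := by
        rw [← Bool.not_eq_true, Nat.beq_eq]
        exact hab
      have h2 : Nat.beq (l.getD b 0) (l.getD a 0) = false := by
        rw [← Bool.not_eq_true, Nat.beq_eq]
        exact fun h => hab h.symm
      rw [h1, h2]
  have e1 : leq l 4 0 = true ↔ W (j - 4) = W j := by
    rw [e 0 4, leq_eq h (by omega) (by omega) (by omega) (by omega), decide_eq_true_iff]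
    simp only [Nat.cast_zero, Nat.cast_ofNat, sub_zero]
    exact eq_comm
  have e2 : leq l 5 1 = true ↔ W (j - 5) = W (j - 1) := by
    rw [e 1 5, leq_eq h (by omega) (by omega) (by omega) (by omega), decide_eq_true_iff]
    simp only [Nat.cast_one, Nat.cast_ofNat]
    exact eq_comm
  have e3 : leq l 6 2 = true ↔ W (j - 6) = W (j - 2) := by
    rw [e 2 6, leq_eq h (by omega) (by omega) (by omega) (by omega), decide_eq_true_iff]
    simp only [Nat.cast_ofNat]
    exact eq_comm
  unfold r43 ind
  apply if_congr _ rfl rfl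
  rw [Bool.and_eq_true, Bool.and_eq_true, e1, e2, e3, and_assoc]

theorem gain_ge (j : ℤ) (l : List ℕ) (h : Lab W j 10 l) (h' : Lab W (j - 1) 9 l.tail)
    (Z : Finset (ℤ × β)) (hZ : ∀ z ∈ Z, NEnd W j z)
    (hZ' : ∀ z ∈ Z, ∀ j' : ℤ, j' < j → ¬ NEnd W j' z) : Z.card ≤ gain l := by
  classical
  have h1 : ∀ z ∈ Z, ∃ c : ℕ, ∃ G i : ℕ, i < 10 ∧ c = G * 16 + l.getD i 0 ∧ c ∈ evs l ∧
      z = (j + 1 - G, W (j - i)) := by
    intro z hz
    obtain ⟨G, i, h2, h3, h4⟩ := evs_complete h (by norm_num) (hZ z hz)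
    exact ⟨_, G, i, h2, rfl, h3, h4⟩
  choose! c hc using h1
  have hlt : ∀ i, i < 10 → l.getD i 0 < 10 := by
    intro i hi
    have := h.lt i hi
    omega
  have hinj : Set.InjOn c (Z : Set (ℤ × β)) := by
    intro z hz z' hz' hzz
    obtain ⟨G, i, a1, a2, a3, a4⟩ := hc z hz
    obtain ⟨G', i', b1, b2, b3, b4⟩ := hc z' hz'
    rw [a2, b2] at hzz
    have l1 := hlt i a1
    have l2 := hlt i' b1
    have h3 : G = G' := by omega
    have h4 : l.getD i 0 = l.getD i' 0 := by omega
    rw [a4, b4, h3, h.eq_of i i' a1 b1 h4]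
  rw [← Finset.card_image_of_injOn hinj]
  unfold gain
  apply cntNew_ge
  · intro x hx
    rw [Finset.mem_image] at hx
    obtain ⟨z, hz, rfl⟩ := hx
    obtain ⟨G, i, a1, a2, a3, a4⟩ := hc z hz
    exact a3
  · intro x hx hx'
    rw [Finset.mem_image] at hx
    obtain ⟨z, hz, rfl⟩ := hx
    obtain ⟨G, i, a1, a2, a3, a4⟩ := hc z hz
    rw [List.mem_map] at hx'
    obtain ⟨c', hc', hcc⟩ := hx'
    obtain ⟨G', i', b1, b2, j', b3, b4⟩ := blk_sound h' hc'
    have h3 : l.tail.getD i' 0 = l.getD (i' + 1) 0 := by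
      cases l with
      | nil => simp
      | cons a t => simp
    rw [h3] at b2
    have l1 := hlt i a1
    have l2 := hlt (i' + 1) (by omega)
    rw [b2, a2] at hcc
    have h4 : G = G' + 1 := by omega
    have h5 : l.getD i 0 = l.getD (i' + 1) 0 := by omega
    have h6 := h.eq_of i (i' + 1) a1 (by omega) h5
    apply hZ' z hz j' (by omega)
    have h7 : z = (j - 1 + 1 - (G' : ℤ), W (j - 1 - i')) := by
      rw [a4, h4, h6]
      refine Prod.ext ?_ ?_
      · push_cast
        ring
      · show W (j - ((i' + 1 : ℕ) : ℤ)) = W (j - 1 - i')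
        congr 1
        push_cast
        ring
    rw [h7]
    exact b4

theorem local_ineq (hW : Sqf W) (j : ℤ) (Z : Finset (ℤ × β)) (hZ : ∀ z ∈ Z, NEnd W j z)
    (hZ' : ∀ z ∈ Z, ∀ j' : ℤ, j' < j → ¬ NEnd W j' z) :
    4 * Z.card + Hr W j ≤ 5 + 4 * ind W j + Hr W (j - 1) := by
  obtain ⟨l, h, hl⟩ := leaf hW j
  have h' : Lab W (j - 1) 9 l.tail := by
    cases l with
    | nil =>
      have := h.len
      simp at this
    | cons a t => exact lab_tail h
  have h1 := gain_ge j l h h' Z hZ hZ'
  unfold leafOK at hl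
  have h2 := Nat.le_of_ble_eq_true hl
  rw [hPot_eq h (by norm_num), hPot_eq h' (by norm_num), r43_eq h (by norm_num)] at h2
  omega

end Pool.Agent.SQF
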