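import Mathlib
import Pool.Agent.SQF.A1
import Pool.Agent.SQF.N3

/-!
SUM OVER THE WORD.

(1) A near pair z has NEnd W j z for some j, and every j with NEnd W j z is in [0,n): L-case: j = g+2P-2-b, t = P-2-b gives
    W (j-P) = W j; R-case with b ≤ P-2: t = P-2-b gives W j = W (j-(P-1)) (P ≥ 3); R-case with b = P-1: j = g-1, t = 0 gives
    W (g-1) = W (g-1-P). By Fresh both positions are in [0,n).
(2) e z := the smallest j with NEnd W j z (a natural number < n). Z is the disjoint union of Z_j = {z ∈ Z : e z = j}, 0 ≤ j < n;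
    local_ineq for Z_j; the sum over j telescopes: 4|Z| + Hr (n-1) ≤ 5n + 4 Σ ind + Hr (-1).
(3) Hr W (-1) = 7: all equalities W (-1-i) = W (-1-k) with i ≠ k are false by Fresh, so Hr W (-1) = hPot (fun _ _ => false) up to the
    values used (symOf eq i uses only pairs (i-d, i), d ≥ 2), and this is 7 by decide.
(4) Σ_{j<n} ind W j ≤ N43: ind W j = 1 gives the run ⟨4, j-6, 3⟩ (j ≥ 6 by Fresh; it is maximal: a further match would give k ≥ 4 and a
    square of half-length 4), different j give different runs.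
-/

set_option autoImplicit false

namespace Pool.Agent.SQF

variable {β : Type*} {W : ℤ → β} {n : ℕ}

theorem NEnd_range (hF : Fresh W n) {j : ℤ} {z : ℤ × β} (h : NEnd W j z) : 0 ≤ j ∧ j < n := by
  have key : ∀ d : ℤ, 0 < d → W (j - d) = W j → 0 ≤ j ∧ j < n := by
    intro d hd hW
    by_contra hc
    have h1 : j < 0 ∨ (n : ℤ) ≤ j := by omega
    exact hF j h1 (j - d) (by omega) hW
  obtain ⟨P, b, hP, ⟨⟨h1, h2, h3, h4⟩, hj⟩ | ⟨⟨h1, h2, h3, h4, h5⟩, hj⟩⟩ := h
  · have h5 := h4 (P - 2 - b) (by omega)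
    have e1 : z.1 + ((P - 2 - b : ℕ) : ℤ) = j - P := by omega
    rw [e1, sub_add_cancel] at h5
    exact key P (by omega) h5
  · by_cases hb : b + 2 ≤ P
    · have h6 := h5 (P - 2 - b) (by omega)
      have e1 : z.1 + ((P - 2 - b : ℕ) : ℤ) = j := by omega
      rw [e1] at h6
      exact key ((P : ℤ) - 1) (by omega) h6.symm
    · have h6 := h4 0 (by omega)
      have e1 : z.1 - 1 - ((0 : ℕ) : ℤ) = j := by omega
      rw [e1] at h6
      exact key P (by omega) h6.symm

theorem Near.exists_NEnd {z : ℤ × β} (h : Near W z) : ∃ j : ℤ, NEnd W j z := by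
  obtain ⟨P, hP, b, h | h⟩ := h
  · exact ⟨_, P, b, hP, Or.inl ⟨h, rfl⟩⟩
  · exact ⟨_, P, b, hP, Or.inr ⟨h, rfl⟩⟩

theorem Hr_neg_one (hF : Fresh W n) : Hr W (-1) = 7 := by
  classical
  have h1 : ∀ i k : ℕ, i ≠ k → decide (W (-1 - (i : ℤ)) = W (-1 - (k : ℤ))) = false := by
    intro i k hik
    rw [decide_eq_false_iff_not]
    exact hF (-1 - (k : ℤ)) (Or.inl (by omega)) (-1 - (i : ℤ)) (by omega)
  have h2 : ∀ i : ℕ, symOf (fun i k => decide (W (-1 - (i : ℤ)) = W (-1 - (k : ℤ)))) i = 0 := by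
    intro i
    have h3 : ∀ d : ℕ, 0 < d → (Nat.ble d i &&
        (fun i k : ℕ => decide (W (-1 - (i : ℤ)) = W (-1 - (k : ℤ)))) (i - d) i) = false := by
      intro d hd
      by_cases hdi : d ≤ i
      · have := h1 (i - d) i (by omega)
        simp only [this, Bool.and_false]
      · have h4 : Nat.ble d i = false := by
          rw [Bool.eq_false_iff]
          intro h5
          exact hdi (Nat.le_of_ble_eq_true h5)
        rw [h4, Bool.false_and]
    unfold symOf
    rw [h3 2 (by omega), h3 3 (by omega), h3 4 (by omega), h3 5 (by omega)]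
    rfl
  have h3 : Hr W (-1) = hWalk ((List.range 8).map (fun _ => 0)) := by
    unfold Hr hPot
    congr 1
    refine List.map_congr_left fun i _ => ?_
    rw [← h2 (i + 1)]
  rw [h3]
  decide

theorem sum_ind_le (hW : Sqf W) (hF : Fresh W n) : ∑ j ∈ Finset.range n, ind W (j : ℤ) ≤ N43 W n := by
  classical
  set C : ℕ → Prop := fun j => W ((j : ℤ) - 4) = W j ∧ W ((j : ℤ) - 5) = W ((j : ℤ) - 1) ∧
    W ((j : ℤ) - 6) = W ((j : ℤ) - 2) with hC
  have h1 : ∑ j ∈ Finset.range n, ind W (j : ℤ) = ((Finset.range n).filter C).card := by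
    rw [Finset.card_filter]
    refine Finset.sum_congr rfl fun j _ => ?_
    unfold ind
    by_cases h : C j
    · rw [if_pos h]
    · rw [if_neg h]
  have h6 : ∀ j : ℕ, C j → 6 ≤ j := by
    rintro j ⟨-, -, h⟩
    by_contra hc
    exact hF ((j : ℤ) - 6) (Or.inl (by omega)) ((j : ℤ) - 2) (by omega) h.symm
  rw [h1]
  unfold N43
  refine Finset.card_le_card_of_injOn (fun j => (⟨4, j - 6, 3⟩ : Run)) ?_ ?_
  · intro j hj
    rw [Finset.mem_coe, Finset.mem_filter] at hj
    have hj6 := h6 j hj.2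
    obtain ⟨-, c1, c2, c3⟩ := hj
    rw [Finset.mem_coe, Finset.mem_filter, mem_Runs hF]
    refine ⟨?_, rfl, rfl⟩
    have e : ((j - 6 : ℕ) : ℤ) = (j : ℤ) - 6 := by omega
    have m : ∀ i : ℕ, i < 3 → W (((j - 6 : ℕ) : ℤ) + i) = W (((j - 6 : ℕ) : ℤ) + i + (4 : ℕ)) := by
      intro i hi
      rw [e]
      interval_cases i
      · have e1 : (j : ℤ) - 6 + ((0 : ℕ) : ℤ) = j - 6 := by omega
        have e2 : (j : ℤ) - 6 + ((0 : ℕ) : ℤ) + ((4 : ℕ) : ℤ) = j - 2 := by omega
        rw [e2, e1]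
        exact c3
      · have e1 : (j : ℤ) - 6 + ((1 : ℕ) : ℤ) = j - 5 := by omega
        have e2 : (j : ℤ) - 6 + ((1 : ℕ) : ℤ) + ((4 : ℕ) : ℤ) = j - 1 := by omega
        rw [e2, e1]
        exact c2
      · have e1 : (j : ℤ) - 6 + ((2 : ℕ) : ℤ) = j - 4 := by omega
        have e2 : (j : ℤ) - 6 + ((2 : ℕ) : ℤ) + ((4 : ℕ) : ℤ) = j := by omega
        rw [e2, e1]
        exact c1
    refine ⟨by norm_num, by norm_num, m, ?_, ?_⟩
    · intro hs
      obtain ⟨i, hi, hne⟩ := hW ((((j - 6 : ℕ) : ℤ)) - 1) 4 (by norm_num)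
      apply hne
      rcases Nat.eq_zero_or_pos i with rfl | hi0
      · simpa using hs
      · have h := m (i - 1) (by omega)
        have e1 : ((j - 6 : ℕ) : ℤ) - 1 + (i : ℤ) = ((j - 6 : ℕ) : ℤ) + ((i - 1 : ℕ) : ℤ) := by omega
        rw [e1]
        exact h
    · intro hs
      obtain ⟨i, hi, hne⟩ := hW (((j - 6 : ℕ) : ℤ)) 4 (by norm_num)
      apply hne
      rcases Nat.lt_or_ge i 3 with h3 | h3
      · exact m i h3
      · have hi3 : i = 3 := by omega
        subst hi3
        exact hs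
  · intro j hj k hk h
    rw [Finset.mem_coe, Finset.mem_filter] at hj hk
    have h1 := h6 j hj.2
    have h2 := h6 k hk.2
    have h3 : j - 6 = k - 6 := congrArg Run.s h
    omega

theorem near_count (hW : Sqf W) (hF : Fresh W n) (Z : Finset (ℤ × β)) (hZ : ∀ z ∈ Z, Near W z) :
    4 * Z.card ≤ 5 * n + 7 + 4 * N43 W n := by
  classical
  have hex : ∀ z ∈ Z, ∃ j : ℕ, NEnd W (j : ℤ) z := by
    intro z hz
    obtain ⟨j, hj⟩ := (hZ z hz).exists_NEnd
    obtain ⟨h0, -⟩ := NEnd_range hF hj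
    lift j to ℕ using h0
    exact ⟨j, hj⟩
  set e : ℤ × β → ℕ := fun z => if h : ∃ j : ℕ, NEnd W (j : ℤ) z then Nat.find h else 0 with he
  have he1 : ∀ z ∈ Z, NEnd W (e z : ℤ) z := by
    intro z hz
    have h := hex z hz
    have e1 : e z = Nat.find h := by rw [he]; exact dif_pos h
    rw [e1]
    exact Nat.find_spec h
  have he2 : ∀ z ∈ Z, ∀ j' : ℤ, j' < e z → ¬ NEnd W j' z := by
    intro z hz j' hj' hN
    have h := hex z hz
    have e1 : e z = Nat.find h := by rw [he]; exact dif_pos h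
    obtain ⟨h0, -⟩ := NEnd_range hF hN
    lift j' to ℕ using h0
    rw [e1] at hj'
    exact Nat.find_min h (by exact_mod_cast hj') hN
  have he3 : ∀ z ∈ Z, e z ∈ Finset.range n := by
    intro z hz
    obtain ⟨-, h⟩ := NEnd_range hF (he1 z hz)
    rw [Finset.mem_range]
    exact_mod_cast h
  have hcard : Z.card = ∑ j ∈ Finset.range n, (Z.filter (fun z => e z = j)).card :=
    Finset.card_eq_sum_card_fiberwise he3
  have hloc : ∀ j : ℕ, 4 * (Z.filter (fun z => e z = j)).card + Hr W (j : ℤ) ≤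
      5 + 4 * ind W (j : ℤ) + Hr W ((j : ℤ) - 1) := by
    intro j
    refine local_ineq hW j _ ?_ ?_
    · intro z hz
      rw [Finset.mem_filter] at hz
      rw [← hz.2]
      exact he1 z hz.1
    · intro z hz j' hj'
      rw [Finset.mem_filter] at hz
      rw [← hz.2] at hj'
      exact he2 z hz.1 j' hj'
  have hsum : ∀ m : ℕ, 4 * ∑ j ∈ Finset.range m, (Z.filter (fun z => e z = j)).card +
      Hr W ((m : ℤ) - 1) ≤ 5 * m + 4 * ∑ j ∈ Finset.range m, ind W (j : ℤ) + Hr W (-1) := by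
    intro m
    induction m with
    | zero => simp
    | succ m ih =>
      have h1 := hloc m
      rw [Finset.sum_range_succ, Finset.sum_range_succ]
      have e1 : ((m + 1 : ℕ) : ℤ) - 1 = m := by omega
      rw [e1]
      omega
  have h1 := hsum n
  have h2 := sum_ind_le hW hF
  rw [← hcard, Hr_neg_one hF] at h1
  omega

end Pool.Agent.SQF
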