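import Mathlib
import Pool.Agent.SQF.C1
import Pool.Agent.SQF.C3
import Pool.Agent.SQF.N4
import Pool.Agent.SQF.I1

/-!
CONCLUSION. Suppose that every insertion creates a square. n = w.length, W = Wd w. Let Z be the set of the pairs
(g, inl a), 0 ≤ g ≤ n, a in A, nontrivial. For every g at most two letters a are excluded, so |Z| ≥ 3 (n+1) (|A| ≥ 5).
Every z in Z has an event with some half-length P (ins_ev with p = w.take g, s = w.drop g). Z = Z1 ∪ Z2 ∪ Z3:
Z1 near; Z2 not near, some P with 6 ≤ P ≤ 128; Z3 not near, some P ≥ 129 (a half-length ≤ 5 would make z near).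
4 |Z1| ≤ 5n + 7 + 4 N43, S (N43 + |Z2|) ≤ 158992 n, 32 |Z3| ≤ 5 n. Hence 3 (n+1) ≤ 1.25 n + 1.75 + 1.58992 n + 0.15625 n < 3 n + 3.
-/

set_option autoImplicit false

namespace Pool.Agent.SQF

open Classical in
theorem card_letters {A : Type*} [Fintype A] (hA : 5 ≤ Fintype.card A) (u v : A ⊕ ℤ) :
    3 ≤ ((Finset.univ : Finset A).filter (fun a => (Sum.inl a : A ⊕ ℤ) ≠ u ∧ (Sum.inl a : A ⊕ ℤ) ≠ v)).card := by
  have key : ∀ t : A ⊕ ℤ, ((Finset.univ : Finset A).filter (fun a => (Sum.inl a : A ⊕ ℤ) = t)).card ≤ 1 := by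
    intro t
    rw [Finset.card_le_one]
    intro a ha b hb
    simp only [Finset.mem_filter, Finset.mem_univ, true_and] at ha hb
    exact Sum.inl_injective (ha.trans hb.symm)
  have hcover : (Finset.univ : Finset A) ⊆
      ((Finset.univ : Finset A).filter (fun a => (Sum.inl a : A ⊕ ℤ) ≠ u ∧ (Sum.inl a : A ⊕ ℤ) ≠ v)) ∪
      (((Finset.univ : Finset A).filter (fun a => (Sum.inl a : A ⊕ ℤ) = u)) ∪
       ((Finset.univ : Finset A).filter (fun a => (Sum.inl a : A ⊕ ℤ) = v))) := by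
    intro a _
    simp only [Finset.mem_union, Finset.mem_filter, Finset.mem_univ, true_and]
    by_cases h1 : (Sum.inl a : A ⊕ ℤ) = u
    · exact Or.inr (Or.inl h1)
    · by_cases h2 : (Sum.inl a : A ⊕ ℤ) = v
      · exact Or.inr (Or.inr h2)
      · exact Or.inl ⟨h1, h2⟩
  have h1 := Finset.card_le_card hcover
  have h2 := (Finset.card_union_le ((Finset.univ : Finset A).filter (fun a => (Sum.inl a : A ⊕ ℤ) ≠ u ∧ (Sum.inl a : A ⊕ ℤ) ≠ v))
    (((Finset.univ : Finset A).filter (fun a => (Sum.inl a : A ⊕ ℤ) = u)) ∪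
       ((Finset.univ : Finset A).filter (fun a => (Sum.inl a : A ⊕ ℤ) = v))))
  have h3 := (Finset.card_union_le ((Finset.univ : Finset A).filter (fun a => (Sum.inl a : A ⊕ ℤ) = u))
       ((Finset.univ : Finset A).filter (fun a => (Sum.inl a : A ⊕ ℤ) = v)))
  have h4 := key u
  have h5 := key v
  rw [Finset.card_univ] at h1
  omega

open Classical in
theorem main (A : Type*) [Fintype A] (hA : 5 ≤ Fintype.card A) (w : List A)
    (hw : ∀ x u y : List A, u ≠ [] → w ≠ x ++ u ++ u ++ y) :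
    ∃ p s : List A, ∃ a : A, w = p ++ s ∧ ∀ x u y : List A, u ≠ [] → p ++ a :: s ≠ x ++ u ++ u ++ y := by
  by_contra hcon
  push Not at hcon
  have hW : Sqf (Wd w) := Wd_sqf w hw
  have hF : Fresh (Wd w) w.length := Wd_fresh w
  set n := w.length with hn
  set T : Finset (ℕ × A) := (Finset.range (n + 1) ×ˢ (Finset.univ : Finset A)).filter
    (fun t => NonTriv (Wd w) ((t.1 : ℤ), Sum.inl t.2)) with hT
  have hTcard : 3 * (n + 1) ≤ T.card := by
    have e : T.card = ∑ g ∈ Finset.range (n + 1), ((Finset.univ : Finset A).filter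
        (fun a => NonTriv (Wd w) ((g : ℤ), Sum.inl a))).card := by
      rw [hT, Finset.card_filter, Finset.sum_product]
      exact Finset.sum_congr rfl (fun g _ => (Finset.card_filter _ _).symm)
    rw [e]
    have : ∀ g ∈ Finset.range (n + 1), 3 ≤ ((Finset.univ : Finset A).filter
        (fun a => NonTriv (Wd w) ((g : ℤ), Sum.inl a))).card := by
      intro g _
      refine (card_letters hA (Wd w ((g : ℤ) - 1)) (Wd w (g : ℤ))).trans (le_of_eq ?_)
      apply congrArg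
      ext a
      simp only [Finset.mem_filter, Finset.mem_univ, true_and, NonTriv]
    calc 3 * (n + 1) = ∑ g ∈ Finset.range (n + 1), 3 := by
          rw [Finset.sum_const, Finset.card_range, smul_eq_mul]; ring
      _ ≤ _ := Finset.sum_le_sum this
  set Z : Finset (ℤ × (A ⊕ ℤ)) := T.image (fun t => ((t.1 : ℤ), (Sum.inl t.2 : A ⊕ ℤ))) with hZ
  have hZcard : Z.card = T.card := by
    rw [hZ]
    apply Finset.card_image_of_injective
    rintro ⟨g, a⟩ ⟨g', a'⟩ h
    simp only [Prod.mk.injEq, Nat.cast_inj, Sum.inl.injEq] at h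
    exact Prod.ext h.1 h.2
  have hZmem : ∀ z ∈ Z, NonTriv (Wd w) z ∧ ∃ P : ℕ, Ev (Wd w) z.1 z.2 P := by
    intro z hz
    rw [hZ, Finset.mem_image] at hz
    obtain ⟨⟨g, a⟩, ht, rfl⟩ := hz
    rw [hT, Finset.mem_filter, Finset.mem_product, Finset.mem_range] at ht
    obtain ⟨⟨hg, _⟩, hnt⟩ := ht
    have hg' : g ≤ w.length := by
      have h0 : g < n + 1 := hg
      omega
    have hlen : (w.take g).length = g := by
      rw [List.length_take]
      exact Nat.min_eq_left hg'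
    refine ⟨hnt, ?_⟩
    have hps : w = w.take g ++ w.drop g := (List.take_append_drop g w).symm
    obtain ⟨x, u, y, hu, he⟩ := hcon (w.take g) (w.drop g) a hps
    have hnt' : NonTriv (Wd w) (((w.take g).length : ℤ), Sum.inl a) := by
      rw [hlen]; exact hnt
    have := ins_ev w hw (w.take g) (w.drop g) a hps ⟨x, u, y, hu, he⟩ hnt'
    rw [hlen] at this
    exact this
  have c1 := near_count hW hF (Z.filter (fun z => Near (Wd w) z)) (fun z hz => (Finset.mem_filter.mp hz).2)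
  have c2 := far_table hW hF (Z.filter (fun z => ¬ Near (Wd w) z ∧ ∃ P : ℕ, 6 ≤ P ∧ P ≤ 128 ∧ Ev (Wd w) z.1 z.2 P))
    (fun z hz => ⟨(hZmem z (Finset.mem_filter.mp hz).1).1, (Finset.mem_filter.mp hz).2.1, (Finset.mem_filter.mp hz).2.2⟩)
  have c3 := far_tail hW hF
    (Z.filter (fun z => ¬ Near (Wd w) z ∧ ¬ ∃ P : ℕ, 6 ≤ P ∧ P ≤ 128 ∧ Ev (Wd w) z.1 z.2 P))
    (by
      intro z hz
      obtain ⟨hzZ, hnear, hno⟩ := Finset.mem_filter.mp hz
      obtain ⟨hnt, P, hP⟩ := hZmem z hzZ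
      refine ⟨hnt, hnear, P, ?_, hP⟩
      by_contra hlt
      push Not at hlt
      by_cases h5 : P ≤ 5
      · exact hnear ⟨P, h5, hP⟩
      · exact hno ⟨P, by omega, by omega, hP⟩)
  have hsum : Z.card ≤ (Z.filter (fun z => Near (Wd w) z)).card +
      (Z.filter (fun z => ¬ Near (Wd w) z ∧ ∃ P : ℕ, 6 ≤ P ∧ P ≤ 128 ∧ Ev (Wd w) z.1 z.2 P)).card +
      (Z.filter (fun z => ¬ Near (Wd w) z ∧ ¬ ∃ P : ℕ, 6 ≤ P ∧ P ≤ 128 ∧ Ev (Wd w) z.1 z.2 P)).card := by
    have hcover : Z ⊆ ((Z.filter (fun z => Near (Wd w) z)) ∪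
      (Z.filter (fun z => ¬ Near (Wd w) z ∧ ∃ P : ℕ, 6 ≤ P ∧ P ≤ 128 ∧ Ev (Wd w) z.1 z.2 P))) ∪
      (Z.filter (fun z => ¬ Near (Wd w) z ∧ ¬ ∃ P : ℕ, 6 ≤ P ∧ P ≤ 128 ∧ Ev (Wd w) z.1 z.2 P)) := by
      intro z hz
      simp only [Finset.mem_union, Finset.mem_filter]
      by_cases h1 : Near (Wd w) z
      · exact Or.inl (Or.inl ⟨hz, h1⟩)
      · by_cases h2 : ∃ P : ℕ, 6 ≤ P ∧ P ≤ 128 ∧ Ev (Wd w) z.1 z.2 P
        · exact Or.inl (Or.inr ⟨hz, h1, h2⟩)
        · exact Or.inr ⟨hz, h1, h2⟩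
    exact (Finset.card_le_card hcover).trans ((Finset.card_union_le _ _).trans
      (Nat.add_le_add_right (Finset.card_union_le _ _) _))
  have hS : S = 100000 := rfl
  rw [hS] at c2
  omega

end Pool.Agent.SQF
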